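import Mathlib

/-!
General facts on square integrable functions: the integral Minkowski inequality, superpositions,
strong convergence of uniformly bounded operators from convergence on a dense class.
-/

namespace Pool.Agent.H16F.H55

open MeasureTheory Filter Topology
open scoped ENNReal NNReal

variable {α : Type*} [MeasurableSpace α] {E : Type*} [NormedAddCommGroup E]

theorem eLpNorm_two (μ : Measure α) (f : α → E) :
    eLpNorm f 2 μ = (∫⁻ x, ‖f x‖ₑ ^ 2 ∂μ) ^ (1 / 2 : ℝ) := by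
  rw [eLpNorm_eq_lintegral_rpow_enorm_toReal (by norm_num) (by norm_num)]
  simp

theorem cs_lintegral (μ : Measure α) {f g : α → ℝ≥0∞} (hf : AEMeasurable f μ)
    (hg : AEMeasurable g μ) :
    ∫⁻ x, f x * g x ∂μ ≤ (∫⁻ x, f x ^ 2 ∂μ) ^ (1 / 2 : ℝ) * (∫⁻ x, g x ^ 2 ∂μ) ^ (1 / 2 : ℝ) := by
  have h := ENNReal.lintegral_mul_le_Lp_mul_Lq μ (p := 2) (q := 2) Real.HolderConjugate.two_two hf hg
  simpa using h

/-- the integral Minkowski inequality in `L²` -/
theorem mink2 {ι X : Type*} [MeasurableSpace ι] [MeasurableSpace X] (μ : Measure ι)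
    (ν : Measure X) [SFinite μ] [SFinite ν] (H : ι → X → ℝ≥0∞)
    (hH : Measurable (Function.uncurry H)) :
    (∫⁻ x, (∫⁻ s, H s x ∂μ) ^ 2 ∂ν) ^ (1 / 2 : ℝ)
      ≤ ∫⁻ s, (∫⁻ x, H s x ^ 2 ∂ν) ^ (1 / 2 : ℝ) ∂μ := by
  set N : ι → ℝ≥0∞ := fun s => (∫⁻ x, H s x ^ 2 ∂ν) ^ (1 / 2 : ℝ) with hN
  have hNm : Measurable N := by
    apply Measurable.pow_const
    exact Measurable.lintegral_prod_right' (f := fun p : ι × X => H p.1 p.2 ^ 2) (hH.pow_const 2)
  have hsec : ∀ s, Measurable (H s) := fun s => hH.of_uncurry_left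
  have hsec' : ∀ x, Measurable (fun s => H s x) := fun x => hH.of_uncurry_right
  have key : ∫⁻ x, (∫⁻ s, H s x ∂μ) ^ 2 ∂ν ≤ (∫⁻ s, N s ∂μ) ^ 2 := by
    calc ∫⁻ x, (∫⁻ s, H s x ∂μ) ^ 2 ∂ν
        = ∫⁻ x, ∫⁻ s, ∫⁻ r, H s x * H r x ∂μ ∂μ ∂ν := by
          refine lintegral_congr fun x => ?_
          rw [sq, ← lintegral_mul_const _ (hsec' x)]
          refine lintegral_congr fun s => ?_
          rw [lintegral_const_mul _ (hsec' x)]
      _ = ∫⁻ s, ∫⁻ x, ∫⁻ r, H s x * H r x ∂μ ∂ν ∂μ := by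
          rw [lintegral_lintegral_swap]
          apply Measurable.aemeasurable
          apply Measurable.lintegral_prod_right'
            (f := fun p : (X × ι) × ι => H p.1.2 p.1.1 * H p.2 p.1.1)
          exact (hH.comp (measurable_fst.snd.prodMk measurable_fst.fst)).mul
            (hH.comp (measurable_snd.prodMk measurable_fst.fst))
      _ = ∫⁻ s, ∫⁻ r, ∫⁻ x, H s x * H r x ∂ν ∂μ ∂μ := by
          refine lintegral_congr fun s => ?_
          rw [lintegral_lintegral_swap]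
          apply Measurable.aemeasurable
          exact ((hsec s).comp measurable_fst).mul (hH.comp (measurable_snd.prodMk measurable_fst))
      _ ≤ ∫⁻ s, ∫⁻ r, N s * N r ∂μ ∂μ := by
          refine lintegral_mono fun s => lintegral_mono fun r => ?_
          exact cs_lintegral ν (hsec s).aemeasurable (hsec r).aemeasurable
      _ = (∫⁻ s, N s ∂μ) ^ 2 := by
          rw [sq, ← lintegral_mul_const _ hNm]
          refine lintegral_congr fun s => ?_
          rw [lintegral_const_mul _ hNm]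
  calc (∫⁻ x, (∫⁻ s, H s x ∂μ) ^ 2 ∂ν) ^ (1 / 2 : ℝ)
      ≤ ((∫⁻ s, N s ∂μ) ^ 2) ^ (1 / 2 : ℝ) := ENNReal.rpow_le_rpow key (by norm_num)
    _ = ∫⁻ s, N s ∂μ := by
        rw [← ENNReal.rpow_natCast, ← ENNReal.rpow_mul]
        norm_num

section Superposition

variable {ι X : Type*} [MeasurableSpace ι] [MeasurableSpace X] {μ : Measure ι}
    {ν : Measure X} [SFinite μ] [SFinite ν] [NormedSpace ℝ E]

theorem memLp_superposition {F : ι → X → E} (hF : StronglyMeasurable (Function.uncurry F))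
    (hfin : ∫⁻ s, eLpNorm (F s) 2 ν ∂μ < ⊤) :
    MemLp (fun x => ∫ s, F s x ∂μ) 2 ν ∧
      eLpNorm (fun x => ∫ s, F s x ∂μ) 2 ν ≤ ∫⁻ s, eLpNorm (F s) 2 ν ∂μ := by
  have h1 : eLpNorm (fun x => ∫ s, F s x ∂μ) 2 ν ≤ ∫⁻ s, eLpNorm (F s) 2 ν ∂μ := by
    rw [eLpNorm_two]
    have h2 := mink2 μ ν (fun s x => ‖F s x‖ₑ) hF.enorm
    refine le_trans (ENNReal.rpow_le_rpow (lintegral_mono fun x => ?_) (by norm_num))
      (h2.trans (le_of_eq ?_))
    · exact pow_le_pow_left' (enorm_integral_le_lintegral_enorm _) 2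
    · refine lintegral_congr fun s => ?_
      rw [eLpNorm_two]
  exact ⟨⟨hF.integral_prod_left.aestronglyMeasurable, h1.trans_lt hfin⟩, h1⟩

omit [SFinite μ] in
theorem integrable_superposition {F : ι → X → E} (hF : StronglyMeasurable (Function.uncurry F))
    (hfin : ∫⁻ s, eLpNorm (F s) 2 ν ∂μ < ⊤) {ψ : X → ℝ} (hψ : MemLp ψ 2 ν) :
    Integrable (fun p : ι × X => ψ p.2 • F p.1 p.2) (μ.prod ν) := by
  have hm : AEStronglyMeasurable (fun p : ι × X => ψ p.2 • F p.1 p.2) (μ.prod ν) :=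
    hψ.1.comp_snd.smul hF.aestronglyMeasurable
  refine ⟨hm, ?_⟩
  rw [hasFiniteIntegral_iff_enorm]
  rw [lintegral_prod _ hm.enorm]
  calc ∫⁻ s, ∫⁻ x, ‖ψ x • F s x‖ₑ ∂ν ∂μ
      ≤ ∫⁻ s, eLpNorm ψ 2 ν * eLpNorm (F s) 2 ν ∂μ := by
        refine lintegral_mono fun s => ?_
        have h1 := cs_lintegral ν (f := fun x => ‖ψ x‖ₑ) (g := fun x => ‖F s x‖ₑ) hψ.1.enorm
          (hF.comp_measurable measurable_prodMk_left).enorm.aemeasurable
        rw [eLpNorm_two, eLpNorm_two]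
        refine le_trans (le_of_eq ?_) h1
        refine lintegral_congr fun x => ?_
        exact enorm_smul _ _
    _ = eLpNorm ψ 2 ν * ∫⁻ s, eLpNorm (F s) 2 ν ∂μ := by
        rw [lintegral_const_mul']
        exact hψ.2.ne
    _ < ⊤ := ENNReal.mul_lt_top hψ.2 hfin

theorem integral_superposition {F : ι → X → E} (hF : StronglyMeasurable (Function.uncurry F))
    (hfin : ∫⁻ s, eLpNorm (F s) 2 ν ∂μ < ⊤) {ψ : X → ℝ} (hψ : MemLp ψ 2 ν) :
    ∫ x, ψ x • (∫ s, F s x ∂μ) ∂ν = ∫ s, (∫ x, ψ x • F s x ∂ν) ∂μ := by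
  have h := integrable_superposition hF hfin hψ
  rw [integral_integral_swap (f := fun s x => ψ x • F s x) h]
  refine integral_congr_ae (Eventually.of_forall fun x => ?_)
  exact (integral_smul _ _).symm

end Superposition

section Strong

variable {X : Type*} [MeasurableSpace X] [TopologicalSpace X] [NormalSpace X] [BorelSpace X]
  [R1Space X] [WeaklyLocallyCompactSpace X] [NormedSpace ℝ E] {ν : Measure X} [ν.Regular]

/-- uniformly bounded linear operators which converge to the identity on continuous functions with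
compact support converge to the identity in `L²` -/
theorem strong_conv {ι : Type*} {l : Filter ι} (T : ι → (X → E) → X → E) (C : ℝ≥0)
    (hmem : ∀ n f, MemLp f 2 ν → MemLp (T n f) 2 ν)
    (hbd : ∀ᶠ n in l, ∀ f, MemLp f 2 ν → eLpNorm (T n f) 2 ν ≤ C * eLpNorm f 2 ν)
    (hsub : ∀ n f g, MemLp f 2 ν → MemLp g 2 ν → T n (f - g) =ᵐ[ν] T n f - T n g)
    (hc : ∀ f : X → E, Continuous f → HasCompactSupport f →
      Tendsto (fun n => eLpNorm (T n f - f) 2 ν) l (𝓝 0))
    {f : X → E} (hf : MemLp f 2 ν) : Tendsto (fun n => eLpNorm (T n f - f) 2 ν) l (𝓝 0) := by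
  rw [ENNReal.tendsto_nhds_zero]
  intro ε hε
  obtain ⟨δ, hδ0, hδ⟩ : ∃ δ : ℝ≥0∞, δ ≠ 0 ∧ C * δ + δ + δ ≤ ε := by
    by_cases hεt : ε = ⊤
    · exact ⟨1, one_ne_zero, by simp [hεt]⟩
    · refine ⟨ε / (C + 2), ?_, ?_⟩
      · exact (ENNReal.div_pos hε.ne' (by finiteness)).ne'
      · have h0 : (C : ℝ≥0∞) + 2 ≠ 0 := by positivity
        have h1 : (C : ℝ≥0∞) + 2 ≠ ⊤ := by finiteness
        have : (C : ℝ≥0∞) * (ε / (C + 2)) + ε / (C + 2) + ε / (C + 2) = (C + 2) * (ε / (C + 2)) := by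
          ring
        rw [this, ENNReal.mul_div_cancel h0 h1]
  obtain ⟨g, hgc, hfg, hg, hgm⟩ := hf.exists_hasCompactSupport_eLpNorm_sub_le (by norm_num) hδ0
  have h1 := (ENNReal.tendsto_nhds_zero.1 (hc g hg hgc)) δ (pos_iff_ne_zero.2 hδ0)
  filter_upwards [h1, hbd] with n hn hb
  have e1 : T n f - f =ᵐ[ν] T n (f - g) + (T n g - g) + (g - f) := by
    filter_upwards [hsub n f g hf hgm] with x hx
    simp only [Pi.sub_apply, Pi.add_apply] at hx ⊢
    rw [hx]
    abel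
  rw [eLpNorm_congr_ae e1]
  have m1 : AEStronglyMeasurable (T n (f - g)) ν := (hmem n _ (hf.sub hgm)).1
  have m2 : AEStronglyMeasurable (T n g - g) ν := ((hmem n _ hgm).sub hgm).1
  have m3 : AEStronglyMeasurable (g - f) ν := (hgm.sub hf).1
  refine (eLpNorm_add_le (m1.add m2) m3 (by norm_num)).trans ?_
  refine (add_le_add_left (eLpNorm_add_le m1 m2 (by norm_num)) _).trans ?_
  refine le_trans ?_ hδ
  refine add_le_add (add_le_add ?_ hn) ?_
  · exact (hb _ (hf.sub hgm)).trans (mul_le_mul_right hfg _)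
  · rw [eLpNorm_sub_comm]; exact hfg

end Strong

end Pool.Agent.H16F.H55
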