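import Pool.Agent.Helper55_Fine.TrnB

/-!
TRN: the trace identity.
-/

namespace Pool.Agent.H16F.H55

open MeasureTheory Complex Filter Topology ProbabilityTheory Pool.Agent.H16Iso Pool.Agent.H62T
open scoped ENNReal NNReal

/-! ### The four domains -/

theorem convex_Hh : Convex ℝ Hh :=
  convex_halfSpace_gt (f := Complex.im) ⟨fun x y => by simp, fun c x => by simp⟩ 0

theorem convex_W1 (β : ℝ) : Convex ℝ (W1 β) := by
  have h := convex_halfSpace_gt (𝕜 := ℝ) (f := fun x : ℂ => x.re * Real.sin β + x.im * Real.cos β)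
    ⟨fun x y => by simp only [add_re, add_im]; ring, fun c x => by simp; ring⟩ 0
  exact convex_Hh.inter h

theorem convex_W2 (β : ℝ) : Convex ℝ (W2 β) := by
  have h := convex_halfSpace_lt (𝕜 := ℝ) (f := fun x : ℂ => x.re * Real.sin β - x.im * Real.cos β)
    ⟨fun x y => by simp only [add_re, add_im]; ring, fun c x => by simp; ring⟩ (Real.sin β)
  exact convex_Hh.inter h

theorem I_mem_Hh : I ∈ Hh := by simp [Hh]

theorem I_mem_W1 {β : ℝ} (h : 0 < β) (h2 : β < Real.pi / 2) : I ∈ W1 β := by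
  have := Real.cos_pos_of_mem_Ioo (x := β) ⟨by linarith, h2⟩
  simpa [W1] using this

theorem I_mem_W2 {β : ℝ} (h : 0 < β) (h2 : β < Real.pi / 2) : I ∈ W2 β := by
  have h3 := Real.cos_pos_of_mem_Ioo (x := β) ⟨by linarith, h2⟩
  have h4 := Real.sin_pos_of_mem_Ioo (x := β) ⟨h, by linarith⟩
  simp only [W2, Set.mem_ofPred_eq, I_im, I_re, zero_mul, one_mul, zero_sub]
  exact ⟨one_pos, by linarith⟩

/-! ### Alternating sums -/

/-- the alternating sum of the quadratic forms -/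
noncomputable def qq (β β' t : ℝ) (f : ℂ → ℝ) : ℝ :=
  qf (Om β β') t f - qf (W1 β) t f - qf (W2 β') t f + qf Hh t f

/-- the alternating sum of the kernels on the diagonal -/
noncomputable def dd (β β' t : ℝ) (x : ℂ) : ℝ :=
  pD (Om β β') t x x - pD (W1 β) t x x - pD (W2 β') t x x + pD Hh t x x

theorem qq_meas (β β' : ℝ) {f : ℂ → ℝ} (hf : Measurable f) :
    Measurable fun t => qq β β' t f :=
  (((qf_meas (H8.isOpen_Om β β') hf).sub (qf_meas (H8.isOpen_W1 β) hf)).sub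
    (qf_meas (H8.isOpen_W2 β') hf)).add (qf_meas H8.isOpen_Hh hf)

theorem dd_meas (β β' : ℝ) : Measurable fun p : ℝ × ℂ => dd β β' p.1 p.2 :=
  (((diag_meas (H8.isOpen_Om β β')).sub (diag_meas (H8.isOpen_W1 β))).sub
    (diag_meas (H8.isOpen_W2 β'))).add (diag_meas H8.isOpen_Hh)

theorem exp_int {a : ℝ} (ha : 0 < a) :
    IntegrableOn (fun t => Real.exp (-(a * t))) (Set.Ioi (0 : ℝ)) := by
  have := exp_neg_integrableOn_Ioi 0 ha
  simpa only [neg_mul] using this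

theorem qf_exp_int {D : Set ℂ} (hD : IsOpen D) {a : ℝ} (ha : 0 < a) {f : ℂ → ℝ}
    (hf : Measurable f) (hf2 : MemLp f 2 volume) :
    IntegrableOn (fun t => Real.exp (-(a * t)) * qf D t f) (Set.Ioi (0 : ℝ)) := by
  refine ((exp_int ha).mul_const (∫ x, f x ^ 2)).mono' ?_ ?_
  · exact ((by fun_prop : Measurable fun t : ℝ => Real.exp (-(a * t))).mul
      (qf_meas hD hf)).aestronglyMeasurable
  · rw [ae_restrict_iff' measurableSet_Ioi]
    refine Eventually.of_forall fun t ht => ?_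
    rw [norm_mul, Real.norm_of_nonneg (Real.exp_pos _).le, Real.norm_eq_abs]
    exact mul_le_mul_of_nonneg_left (qf_abs_le hD ht hf2) (Real.exp_pos _).le

theorem qq_exp_int (β β' : ℝ) {a : ℝ} (ha : 0 < a) {f : ℂ → ℝ}
    (hf : Measurable f) (hf2 : MemLp f 2 volume) :
    IntegrableOn (fun t => Real.exp (-(a * t)) * qq β β' t f) (Set.Ioi (0 : ℝ)) := by
  have := (((qf_exp_int (H8.isOpen_Om β β') ha hf hf2).sub
    (qf_exp_int (H8.isOpen_W1 β) ha hf hf2)).sub (qf_exp_int (H8.isOpen_W2 β') ha hf hf2)).add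
    (qf_exp_int H8.isOpen_Hh ha hf hf2)
  refine this.congr (Eventually.of_forall fun t => ?_)
  simp only [Pi.add_apply, Pi.sub_apply, qq]
  ring

theorem single (hbr : BrStatement) {β β' κ : ℝ} (hβ : 0 < β) (hβ2 : β < Real.pi / 2)
    (hβ' : 0 < β') (hβ'2 : β' < Real.pi / 2) (hκ : 0 < κ) {f : ℂ → ℝ} (hf : Measurable f)
    (hf2 : MemLp f 2 volume) {uH u1 u2 uO : ℂ → ℝ} (sH : Sol κ Hh f uH) (s1 : Sol κ (W1 β) f u1)
    (s2 : Sol κ (W2 β') f u2) (sO : Sol κ (Om β β') f uO) :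
    ∫ x, (uO x - u1 x - u2 x + uH x) * f x
      = ∫ t in Set.Ioi (0 : ℝ), Real.exp (-(κ ^ 2 * t)) * qq β β' t f := by
  have ha : 0 < κ ^ 2 := by positivity
  have bH := hbr κ Hh hκ H8.isOpen_Hh convex_Hh ⟨I, I_mem_Hh⟩ f uH hf2 sH
  have b1 := hbr κ (W1 β) hκ (H8.isOpen_W1 β) (convex_W1 β) ⟨I, I_mem_W1 hβ hβ2⟩ f u1 hf2 s1
  have b2 := hbr κ (W2 β') hκ (H8.isOpen_W2 β') (convex_W2 β') ⟨I, I_mem_W2 hβ' hβ'2⟩ f u2 hf2 s2
  have bO := hbr κ (Om β β') hκ (H8.isOpen_Om β β') ((convex_W1 β).inter (convex_W2 β'))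
    ⟨I, I_mem_W1 hβ hβ2, I_mem_W2 hβ' hβ'2⟩ f uO hf2 sO
  have mem : ∀ {D : Set ℂ} {u : ℂ → ℝ}, Sol κ D f u → Integrable fun x => u x * f x := by
    intro D u hs
    obtain ⟨g, hg⟩ := hs.mem.1
    exact integrable_mul2 hg.memf hf2
  have e1 : ∫ x, (uO x - u1 x - u2 x + uH x) * f x
      = (∫ x, uO x * f x) - (∫ x, u1 x * f x) - (∫ x, u2 x * f x) + ∫ x, uH x * f x := by
    have i1 : Integrable fun x => uO x * f x - u1 x * f x := (mem sO).sub (mem s1)
    have i2 : Integrable fun x => uO x * f x - u1 x * f x - u2 x * f x := i1.sub (mem s2)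
    rw [← integral_sub (mem sO) (mem s1), ← integral_sub i1 (mem s2),
      ← integral_add i2 (mem sH)]
    congr 1
    funext x
    ring
  have jO := qf_exp_int (H8.isOpen_Om β β') ha hf hf2
  have j1 := qf_exp_int (H8.isOpen_W1 β) ha hf hf2
  have j2 := qf_exp_int (H8.isOpen_W2 β') ha hf hf2
  have jH := qf_exp_int H8.isOpen_Hh ha hf hf2
  rw [e1, bH, b1, b2, bO]
  change (∫ t in Set.Ioi (0 : ℝ), Real.exp (-(κ ^ 2 * t)) * qf (Om β β') t f)
    - (∫ t in Set.Ioi (0 : ℝ), Real.exp (-(κ ^ 2 * t)) * qf (W1 β) t f)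
    - (∫ t in Set.Ioi (0 : ℝ), Real.exp (-(κ ^ 2 * t)) * qf (W2 β') t f)
    + (∫ t in Set.Ioi (0 : ℝ), Real.exp (-(κ ^ 2 * t)) * qf Hh t f) = _
  have i1 : IntegrableOn (fun t => Real.exp (-(κ ^ 2 * t)) * qf (Om β β') t f
    - Real.exp (-(κ ^ 2 * t)) * qf (W1 β) t f) (Set.Ioi (0 : ℝ)) := jO.sub j1
  have i2 : IntegrableOn (fun t => Real.exp (-(κ ^ 2 * t)) * qf (Om β β') t f
    - Real.exp (-(κ ^ 2 * t)) * qf (W1 β) t f
    - Real.exp (-(κ ^ 2 * t)) * qf (W2 β') t f) (Set.Ioi (0 : ℝ)) := i1.sub j2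
  rw [← integral_sub jO j1, ← integral_sub i1 j2, ← integral_add i2 jH]
  congr 1
  funext t
  simp only [qq]
  ring

/-! ### The weight -/

theorem wt_nonneg {κ κ' : ℝ} (hκ : 0 < κ) (hκ' : κ < κ') {t : ℝ} (ht : 0 < t) :
    0 ≤ Real.exp (-(κ ^ 2 * t)) - Real.exp (-(κ' ^ 2 * t)) := by
  rw [sub_nonneg, Real.exp_le_exp]
  have : κ ^ 2 ≤ κ' ^ 2 := by nlinarith
  nlinarith

theorem wt_le {κ κ' : ℝ} {t : ℝ} (ht : 0 < t) :
    (Real.exp (-(κ ^ 2 * t)) - Real.exp (-(κ' ^ 2 * t))) * G t 0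
      ≤ (κ' ^ 2 - κ ^ 2) / (4 * Real.pi) * Real.exp (-(κ ^ 2 * t)) := by
  have e1 : Real.exp (-(κ' ^ 2 * t))
      = Real.exp (-(κ ^ 2 * t)) * Real.exp (-((κ' ^ 2 - κ ^ 2) * t)) := by
    rw [← Real.exp_add]
    congr 1
    ring
  have e2 : G t 0 = 1 / (4 * Real.pi * t) := by
    unfold G
    simp
  have e3 := Real.add_one_le_exp (-((κ' ^ 2 - κ ^ 2) * t))
  rw [e1, e2]
  have e4 : Real.exp (-(κ ^ 2 * t))
      - Real.exp (-(κ ^ 2 * t)) * Real.exp (-((κ' ^ 2 - κ ^ 2) * t))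
      ≤ Real.exp (-(κ ^ 2 * t)) * ((κ' ^ 2 - κ ^ 2) * t) := by
    have := mul_le_mul_of_nonneg_left e3 (Real.exp_pos (-(κ ^ 2 * t))).le
    linarith
  calc (Real.exp (-(κ ^ 2 * t))
      - Real.exp (-(κ ^ 2 * t)) * Real.exp (-((κ' ^ 2 - κ ^ 2) * t))) * (1 / (4 * Real.pi * t))
      ≤ (Real.exp (-(κ ^ 2 * t)) * ((κ' ^ 2 - κ ^ 2) * t)) * (1 / (4 * Real.pi * t)) :=
        mul_le_mul_of_nonneg_right e4 (by positivity)
    _ = _ := by
        field_simp

/-! ### The identity for a ball -/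

section Ball

variable {β β' κ κ' : ℝ} {B : Set ℂ} {φ : ℕ → ℂ → ℝ}

theorem qq_sum (h : Onb B φ) (hB : MeasurableSet B) (hv : volume B ≠ ⊤) {t : ℝ} (ht : 0 < t) :
    (∀ N, |∑ k ∈ Finset.range N, qq β β' t (φ k)| ≤ 4 * ((volume B).toReal * G t 0)) ∧
    Tendsto (fun N => ∑ k ∈ Finset.range N, qq β β' t (φ k)) atTop
      (𝓝 (∫ x in B, dd β β' t x)) := by
  obtain ⟨a1, b1⟩ := heat_sum (H8.isOpen_Om β β') h hB hv ht
  obtain ⟨a2, b2⟩ := heat_sum (H8.isOpen_W1 β) h hB hv ht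
  obtain ⟨a3, b3⟩ := heat_sum (H8.isOpen_W2 β') h hB hv ht
  obtain ⟨a4, b4⟩ := heat_sum H8.isOpen_Hh h hB hv ht
  have e : ∀ N, ∑ k ∈ Finset.range N, qq β β' t (φ k)
      = ∑ k ∈ Finset.range N, qf (Om β β') t (φ k) - ∑ k ∈ Finset.range N, qf (W1 β) t (φ k)
        - ∑ k ∈ Finset.range N, qf (W2 β') t (φ k) + ∑ k ∈ Finset.range N, qf Hh t (φ k) := by
    intro N
    simp only [qq, Finset.sum_add_distrib, Finset.sum_sub_distrib]
  constructor
  · intro N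
    rw [e N]
    have c1 := abs_le.1 (a1 N)
    have c2 := abs_le.1 (a2 N)
    have c3 := abs_le.1 (a3 N)
    have c4 := abs_le.1 (a4 N)
    rw [abs_le]
    constructor <;> linarith [c1.1, c1.2, c2.1, c2.2, c3.1, c3.2, c4.1, c4.2]
  · have e2 : ∫ x in B, dd β β' t x = (∫ x in B, pD (Om β β') t x x)
        - (∫ x in B, pD (W1 β) t x x) - (∫ x in B, pD (W2 β') t x x)
        + ∫ x in B, pD Hh t x x := by
      have i1 := diag_int (H8.isOpen_Om β β') ht hv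
      have i2 := diag_int (H8.isOpen_W1 β) ht hv
      have i3 := diag_int (H8.isOpen_W2 β') ht hv
      have i4 := diag_int H8.isOpen_Hh ht hv
      have i5 : IntegrableOn (fun x => pD (Om β β') t x x - pD (W1 β) t x x) B := i1.sub i2
      have i6 : IntegrableOn (fun x => pD (Om β β') t x x - pD (W1 β) t x x
        - pD (W2 β') t x x) B := i5.sub i3
      rw [← integral_sub i1 i2, ← integral_sub i5 i3, ← integral_add i6 i4]
      rfl
    rw [e2]
    simp only [e]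
    exact ((b1.sub b2).sub b3).add b4

/-- the integrand for a ball -/
theorem ball_int (hκ : 0 < κ) (hκ' : κ < κ') (h : Onb B φ) (hB : MeasurableSet B)
    (hv : volume B ≠ ⊤) :
    IntegrableOn (fun t => (Real.exp (-(κ ^ 2 * t)) - Real.exp (-(κ' ^ 2 * t)))
      * ∫ x in B, dd β β' t x) (Set.Ioi (0 : ℝ)) ∧
    Tendsto (fun N => ∫ t in Set.Ioi (0 : ℝ), (Real.exp (-(κ ^ 2 * t))
      - Real.exp (-(κ' ^ 2 * t))) * ∑ k ∈ Finset.range N, qq β β' t (φ k)) atTop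
      (𝓝 (∫ t in Set.Ioi (0 : ℝ), (Real.exp (-(κ ^ 2 * t)) - Real.exp (-(κ' ^ 2 * t)))
        * ∫ x in B, dd β β' t x)) := by
  set C : ℝ := 4 * (volume B).toReal * ((κ' ^ 2 - κ ^ 2) / (4 * Real.pi)) with hC
  have hbi : IntegrableOn (fun t => C * Real.exp (-(κ ^ 2 * t))) (Set.Ioi (0 : ℝ)) :=
    (exp_int (by positivity)).const_mul C
  have hbd : ∀ t : ℝ, 0 < t → (Real.exp (-(κ ^ 2 * t)) - Real.exp (-(κ' ^ 2 * t)))
      * (4 * ((volume B).toReal * G t 0)) ≤ C * Real.exp (-(κ ^ 2 * t)) := by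
    intro t ht
    have := mul_le_mul_of_nonneg_left (wt_le (κ := κ) (κ' := κ') ht)
      (by positivity : 0 ≤ 4 * (volume B).toReal)
    calc _ = 4 * (volume B).toReal * ((Real.exp (-(κ ^ 2 * t)) - Real.exp (-(κ' ^ 2 * t)))
          * G t 0) := by ring
      _ ≤ _ := this
      _ = _ := by rw [hC]; ring
  have hwm : Measurable fun t : ℝ => Real.exp (-(κ ^ 2 * t)) - Real.exp (-(κ' ^ 2 * t)) := by
    fun_prop
  have hmN : ∀ N, AEStronglyMeasurable (fun t => (Real.exp (-(κ ^ 2 * t))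
      - Real.exp (-(κ' ^ 2 * t))) * ∑ k ∈ Finset.range N, qq β β' t (φ k))
      (volume.restrict (Set.Ioi (0 : ℝ))) := by
    intro N
    refine (hwm.mul ?_).aestronglyMeasurable
    exact Finset.measurable_sum _ fun k _ => qq_meas β β' (h.meas k)
  have hdm : Measurable fun t => ∫ x in B, dd β β' t x :=
    ((dd_meas β β').stronglyMeasurable.integral_prod_right' (ν := volume.restrict B)).measurable
  have hlim : ∀ᵐ t ∂(volume.restrict (Set.Ioi (0 : ℝ))),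
      Tendsto (fun N => (Real.exp (-(κ ^ 2 * t)) - Real.exp (-(κ' ^ 2 * t)))
        * ∑ k ∈ Finset.range N, qq β β' t (φ k)) atTop
        (𝓝 ((Real.exp (-(κ ^ 2 * t)) - Real.exp (-(κ' ^ 2 * t))) * ∫ x in B, dd β β' t x)) := by
    rw [ae_restrict_iff' measurableSet_Ioi]
    exact Eventually.of_forall fun t ht => ((qq_sum h hB hv ht).2).const_mul _
  have hbN : ∀ N, ∀ᵐ t ∂(volume.restrict (Set.Ioi (0 : ℝ))),
      ‖(Real.exp (-(κ ^ 2 * t)) - Real.exp (-(κ' ^ 2 * t)))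
        * ∑ k ∈ Finset.range N, qq β β' t (φ k)‖ ≤ C * Real.exp (-(κ ^ 2 * t)) := by
    intro N
    rw [ae_restrict_iff' measurableSet_Ioi]
    refine Eventually.of_forall fun t ht => ?_
    rw [norm_mul, Real.norm_of_nonneg (wt_nonneg hκ hκ' ht), Real.norm_eq_abs]
    exact (mul_le_mul_of_nonneg_left ((qq_sum h hB hv ht).1 N)
      (wt_nonneg hκ hκ' ht)).trans (hbd t ht)
  constructor
  · refine hbi.mono' (hwm.mul hdm).aestronglyMeasurable ?_
    filter_upwards [hlim, ae_all_iff.2 hbN] with t h1 h2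
    exact le_of_tendsto h1.norm (Eventually.of_forall h2)
  · exact tendsto_integral_of_dominated_convergence _ hmN hbi hbN hlim

theorem ball_eq (hbr : BrStatement) (hβ : 0 < β) (hβ2 : β < Real.pi / 2) (hβ' : 0 < β')
    (hβ'2 : β' < Real.pi / 2) (hκ : 0 < κ) (hκκ' : κ < κ')
    {ι : Type} [MeasurableSpace ι] {μ μ' : Measure ι} [SFinite μ] [SFinite μ']
    {P Q P' Q' : ι → ℂ → ℝ} (hR : Rk κ β β' μ P Q) (hR' : Rk κ' β β' μ' P' Q')
    (h : Onb B φ) (hB : MeasurableSet B) (hv : volume B ≠ ⊤) :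
    ∫ t in Set.Ioi (0 : ℝ), (Real.exp (-(κ ^ 2 * t)) - Real.exp (-(κ' ^ 2 * t)))
        * ∫ x in B, dd β β' t x
      = ∫ s, (∫ x in B, P s x * Q s x) ∂μ - ∫ s, (∫ x in B, P' s x * Q' s x) ∂μ' := by
  have hκ' : 0 < κ' := hκ.trans hκκ'
  have sol : ∀ κ : ℝ, 0 < κ → ∀ k, ∃ uH u1 u2 uO : ℂ → ℝ, Sol κ Hh (φ k) uH ∧
      Sol κ (W1 β) (φ k) u1 ∧ Sol κ (W2 β') (φ k) u2 ∧ Sol κ (Om β β') (φ k) uO := by
    intro κ hκ k
    obtain ⟨uH, h1⟩ := (res κ Hh hκ H8.isOpen_Hh convex_Hh ⟨I, I_mem_Hh⟩).1 (φ k) (h.memLp k)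
    obtain ⟨u1, h2⟩ := (res κ (W1 β) hκ (H8.isOpen_W1 β) (convex_W1 β)
      ⟨I, I_mem_W1 hβ hβ2⟩).1 (φ k) (h.memLp k)
    obtain ⟨u2, h3⟩ := (res κ (W2 β') hκ (H8.isOpen_W2 β') (convex_W2 β')
      ⟨I, I_mem_W2 hβ' hβ'2⟩).1 (φ k) (h.memLp k)
    obtain ⟨uO, h4⟩ := (res κ (Om β β') hκ (H8.isOpen_Om β β')
      ((convex_W1 β).inter (convex_W2 β')) ⟨I, I_mem_W1 hβ hβ2, I_mem_W2 hβ' hβ'2⟩).1
      (φ k) (h.memLp k)
    exact ⟨uH, u1, u2, uO, h1, h2, h3, h4⟩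
  choose uH u1 u2 uO sH s1 s2 sO using sol κ hκ
  choose vH v1 v2 vO tH t1 t2 tO using sol κ' hκ'
  have l1 := rk_sum hR.measP hR.measQ hR.fin h hB
    (ψ := fun k x => uO k x - u1 k x - u2 k x + uH k x)
    (fun k => hR.eq (φ k) (uH k) (u1 k) (u2 k) (uO k) (h.memLp k) (sH k) (s1 k) (s2 k) (sO k))
  have l2 := rk_sum hR'.measP hR'.measQ hR'.fin h hB
    (ψ := fun k x => vO k x - v1 k x - v2 k x + vH k x)
    (fun k => hR'.eq (φ k) (vH k) (v1 k) (v2 k) (vO k) (h.memLp k) (tH k) (t1 k) (t2 k) (tO k))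
  have l3 := l1.sub l2
  have l4 := (ball_int (β := β) (β' := β') hκ hκκ' h hB hv).2
  refine tendsto_nhds_unique l4 (l3.congr fun N => ?_)
  rw [← Finset.sum_sub_distrib]
  have e : ∀ k, (∫ x, (uO k x - u1 k x - u2 k x + uH k x) * φ k x)
      - ∫ x, (vO k x - v1 k x - v2 k x + vH k x) * φ k x
      = ∫ t in Set.Ioi (0 : ℝ), (Real.exp (-(κ ^ 2 * t)) - Real.exp (-(κ' ^ 2 * t)))
        * qq β β' t (φ k) := by
    intro k
    rw [single hbr hβ hβ2 hβ' hβ'2 hκ (h.meas k) (h.memLp k) (sH k) (s1 k) (s2 k) (sO k),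
      single hbr hβ hβ2 hβ' hβ'2 hκ' (h.meas k) (h.memLp k) (tH k) (t1 k) (t2 k) (tO k),
      ← integral_sub (qq_exp_int β β' (by positivity) (h.meas k) (h.memLp k))
        (qq_exp_int β β' (by positivity) (h.meas k) (h.memLp k))]
    congr 1
    funext t
    ring
  rw [Finset.sum_congr rfl fun k _ => e k, ← integral_finsetSum]
  · congr 1
    funext t
    rw [Finset.mul_sum]
  · intro k _
    have := (qq_exp_int β β' (by positivity : 0 < κ ^ 2) (h.meas k) (h.memLp k)).sub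
      (qq_exp_int β β' (by positivity : 0 < κ' ^ 2) (h.meas k) (h.memLp k))
    refine this.congr (Eventually.of_forall fun t => ?_)
    simp only [Pi.sub_apply]
    ring

end Ball

/-- TRN -/
theorem trn (hbr : BrStatement) : TrnStatement := by
  intro β β' hβ hβ2 hβ' hβ'2 κ κ' hκ hκκ' ι _ μ μ' _ _ P Q P' Q' hR hR'
  have har := H8.area β β' hβ hβ2 hβ' hβ'2
  have hdnn : ∀ t : ℝ, 0 < t → ∀ x, 0 ≤ dd β β' t x := fun t ht => (har t ht).1
  have hdint : ∀ t : ℝ, 0 < t → Integrable (dd β β' t) := fun t ht => (har t ht).2.1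
  have hdval : ∀ t : ℝ, 0 < t → ∫ x, dd β β' t x = Phi β β' (1 / Real.sqrt t) / (4 * Real.pi) :=
    fun t ht => (har t ht).2.2
  set B : ℕ → Set ℂ := fun n => Metric.ball (0 : ℂ) (n + 1) with hBdef
  set F : ℕ → ℝ → ℝ := fun n t => (Real.exp (-(κ ^ 2 * t)) - Real.exp (-(κ' ^ 2 * t)))
    * ∫ x in B n, dd β β' t x with hF
  set F0 : ℝ → ℝ := fun t => (Real.exp (-(κ ^ 2 * t)) - Real.exp (-(κ' ^ 2 * t)))
    * (Phi β β' (1 / Real.sqrt t) / (4 * Real.pi)) with hF0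
  have hB : ∀ n, MeasurableSet (B n) := fun n => Metric.isOpen_ball.measurableSet
  have hv : ∀ n, volume (B n) ≠ ⊤ := fun n => measure_ball_lt_top.ne
  have hBm : Monotone B := fun n m hnm => Metric.ball_subset_ball (by
    have : (n : ℝ) ≤ m := by exact_mod_cast hnm
    linarith)
  have hBU : (⋃ n, B n) = Set.univ := by
    refine Set.eq_univ_of_forall fun x => Set.mem_iUnion.2 ?_
    obtain ⟨n, hn⟩ := exists_nat_gt ‖x‖
    exact ⟨n, by rw [hBdef, mem_ball_zero_iff]; linarith⟩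
  choose φ hφ using fun n : ℕ => exists_onb ((n : ℝ) + 1) (by positivity)
  have hFi : ∀ n, IntegrableOn (F n) (Set.Ioi (0 : ℝ)) := fun n =>
    (ball_int (β := β) (β' := β') hκ hκκ' (hφ n) (hB n) (hv n)).1
  have hEq : ∀ n, ∫ t in Set.Ioi (0 : ℝ), F n t
      = ∫ s, (∫ x in B n, P s x * Q s x) ∂μ - ∫ s, (∫ x in B n, P' s x * Q' s x) ∂μ' := fun n =>
    ball_eq hbr hβ hβ2 hβ' hβ'2 hκ hκκ' hR hR' (hφ n) (hB n) (hv n)
  have hL : Tendsto (fun n => ∫ t in Set.Ioi (0 : ℝ), F n t) atTop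
      (𝓝 (∫ s, (∫ x, P s x * Q s x) ∂μ - ∫ s, (∫ x, P' s x * Q' s x) ∂μ')) := by
    simp only [hEq]
    exact (rk_lim hR.measP hR.measQ hR.fin).sub (rk_lim hR'.measP hR'.measQ hR'.fin)
  have hFnn : ∀ n, ∀ t : ℝ, 0 < t → 0 ≤ F n t := fun n t ht =>
    mul_nonneg (wt_nonneg hκ hκκ' ht) (integral_nonneg fun x => hdnn t ht x)
  have hFlim : ∀ t : ℝ, 0 < t → Tendsto (fun n => F n t) atTop (𝓝 (F0 t)) := by
    intro t ht
    refine Tendsto.const_mul _ ?_
    have := tendsto_setIntegral_of_monotone (μ := (volume : Measure ℂ)) (f := dd β β' t)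
      hB hBm (hdint t ht).integrableOn
    rwa [hBU, Measure.restrict_univ, hdval t ht] at this
  have hFmono : ∀ t : ℝ, 0 < t → Monotone fun n => F n t := by
    intro t ht n m hnm
    refine mul_le_mul_of_nonneg_left ?_ (wt_nonneg hκ hκκ' ht)
    exact setIntegral_mono_set (hdint t ht).integrableOn
      (Eventually.of_forall fun x => hdnn t ht x) (hBm hnm).eventuallyLE
  have hF0nn : ∀ t : ℝ, 0 < t → 0 ≤ F0 t := fun t ht =>
    ge_of_tendsto' (hFlim t ht) fun n => hFnn n t ht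
  have hlin : ∀ n, ∫⁻ t in Set.Ioi (0 : ℝ), ENNReal.ofReal (F n t)
      = ENNReal.ofReal (∫ t in Set.Ioi (0 : ℝ), F n t) := by
    intro n
    rw [ofReal_integral_eq_lintegral_ofReal (hFi n)]
    rw [EventuallyLE, ae_restrict_iff' measurableSet_Ioi]
    exact Eventually.of_forall fun t ht => hFnn n t ht
  have hmono := lintegral_tendsto_of_tendsto_of_monotone
    (μ := volume.restrict (Set.Ioi (0 : ℝ))) (f := fun n t => ENNReal.ofReal (F n t))
    (F := fun t => ENNReal.ofReal (F0 t)) (fun n => (hFi n).1.aemeasurable.ennreal_ofReal)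
    (by
      rw [ae_restrict_iff' measurableSet_Ioi]
      exact Eventually.of_forall fun t ht n m hnm => ENNReal.ofReal_le_ofReal (hFmono t ht hnm))
    (by
      rw [ae_restrict_iff' measurableSet_Ioi]
      exact Eventually.of_forall fun t ht => ENNReal.tendsto_ofReal (hFlim t ht))
  simp only [hlin] at hmono
  have huniq := tendsto_nhds_unique hmono (ENNReal.tendsto_ofReal hL)
  have hLnn : 0 ≤ ∫ s, (∫ x, P s x * Q s x) ∂μ - ∫ s, (∫ x, P' s x * Q' s x) ∂μ' := by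
    refine ge_of_tendsto' hL fun n => ?_
    exact setIntegral_nonneg measurableSet_Ioi fun t ht => hFnn n t ht
  have hm0 : AEStronglyMeasurable F0 (volume.restrict (Set.Ioi (0 : ℝ))) := by
    refine aestronglyMeasurable_of_tendsto_ae atTop (fun n => (hFi n).1) ?_
    rw [ae_restrict_iff' measurableSet_Ioi]
    exact Eventually.of_forall fun t ht => hFlim t ht
  rw [integral_eq_lintegral_of_nonneg_ae ?_ hm0, huniq, ENNReal.toReal_ofReal hLnn]
  rw [EventuallyLE, ae_restrict_iff' measurableSet_Ioi]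
  exact Eventually.of_forall fun t ht => hF0nn t ht

end Pool.Agent.H16F.H55
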