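import Pool.Agent.Helper55_Fine.TestFn

/-!
GRB: basic facts on weak gradients: linearity, uniqueness, test functions, Lipschitz functions,
dilations, superpositions.
-/

namespace Pool.Agent.H16F.H55

open MeasureTheory Complex Filter Topology Pool.Agent.H16Iso Pool.Agent.H62T
open scoped ENNReal NNReal ContDiff

theorem grad_lin {f f' : ℂ → ℝ} {g g' : ℂ → ℂ} (a b : ℝ) (h : Grad f g) (h' : Grad f' g') :
    Grad (fun x => a * f x + b * f' x) (fun x => (a : ℂ) * g x + (b : ℂ) * g' x) := by
  refine ⟨(h.memf.const_mul a).add (h'.memf.const_mul b),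
    (h.memg.const_mul (a : ℂ)).add (h'.memg.const_mul (b : ℂ)), fun φ hφ v => ?_⟩
  have i1 := integrable_mul2 h.memf (test_fderiv_memLp hφ v 2)
  have i2 := integrable_mul2 h'.memf (test_fderiv_memLp hφ v 2)
  have i3 := integrable_mul2 (memLp_ip_const h.memg v) (test_memLp hφ 2)
  have i4 := integrable_mul2 (memLp_ip_const h'.memg v) (test_memLp hφ 2)
  have e1 : ∫ x, (a * f x + b * f' x) * fderiv ℝ φ x v
      = a * (∫ x, f x * fderiv ℝ φ x v) + b * ∫ x, f' x * fderiv ℝ φ x v := by
    rw [← integral_const_mul, ← integral_const_mul, ← integral_add (i1.const_mul _) (i2.const_mul _)]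
    refine integral_congr_ae (Eventually.of_forall fun x => ?_)
    show (a * f x + b * f' x) * fderiv ℝ φ x v
      = a * (f x * fderiv ℝ φ x v) + b * (f' x * fderiv ℝ φ x v)
    ring
  have e2 : ∫ x, ip ((a : ℂ) * g x + (b : ℂ) * g' x) v * φ x
      = a * (∫ x, ip (g x) v * φ x) + b * ∫ x, ip (g' x) v * φ x := by
    rw [← integral_const_mul, ← integral_const_mul, ← integral_add (i3.const_mul _) (i4.const_mul _)]
    refine integral_congr_ae (Eventually.of_forall fun x => ?_)
    show ip ((a : ℂ) * g x + (b : ℂ) * g' x) v * φ x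
      = a * (ip (g x) v * φ x) + b * (ip (g' x) v * φ x)
    rw [ip_add_left, ip_ofReal_mul_left, ip_ofReal_mul_left]
    ring
  rw [e1, e2, h.weak φ hφ v, h'.weak φ hφ v]
  ring

theorem grad_congr {f f' : ℂ → ℝ} {g g' : ℂ → ℂ} (h : Grad f g) (hf : f =ᵐ[volume] f')
    (hg : g =ᵐ[volume] g') : Grad f' g' := by
  refine ⟨h.memf.ae_eq hf, h.memg.ae_eq hg, fun φ hφ v => ?_⟩
  have e1 : ∫ x, f' x * fderiv ℝ φ x v = ∫ x, f x * fderiv ℝ φ x v := by
    refine integral_congr_ae ?_
    filter_upwards [hf] with x hx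
    rw [hx]
  have e2 : ∫ x, ip (g' x) v * φ x = ∫ x, ip (g x) v * φ x := by
    refine integral_congr_ae ?_
    filter_upwards [hg] with x hx
    rw [hx]
  rw [e1, e2, h.weak φ hφ v]

theorem memLp_two_locallyIntegrable {f : ℂ → ℝ} (hf : MemLp f 2 volume) :
    LocallyIntegrable f volume := hf.locallyIntegrable (by norm_num)

/-- an `L²` function is zero if its integrals against test functions vanish -/
theorem ae_zero_of_test {f : ℂ → ℝ} (hf : MemLp f 2 volume)
    (h : ∀ φ ∈ Test Set.univ, ∫ x, f x * φ x = 0) : f =ᵐ[volume] 0 := by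
  apply ae_eq_zero_of_integral_contDiff_smul_eq_zero (memLp_two_locallyIntegrable hf)
  intro φ h1 h2
  rw [← h φ ⟨h1, h2, Set.subset_univ _⟩]
  refine integral_congr_ae (Eventually.of_forall fun x => ?_)
  show φ x • f x = f x * φ x
  rw [smul_eq_mul, mul_comm]

theorem grad_unique {f : ℂ → ℝ} {g g' : ℂ → ℂ} (h : Grad f g) (h' : Grad f g') :
    g =ᵐ[volume] g' := by
  have key : ∀ v : ℂ, (fun x => ip (g x - g' x) v) =ᵐ[volume] 0 := by
    intro v
    refine ae_zero_of_test (memLp_ip_const (h.memg.sub h'.memg) v) fun φ hφ => ?_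
    have i3 := integrable_mul2 (memLp_ip_const h.memg v) (test_memLp hφ 2)
    have i4 := integrable_mul2 (memLp_ip_const h'.memg v) (test_memLp hφ 2)
    have e : ∫ x, ip (g x - g' x) v * φ x
        = (∫ x, ip (g x) v * φ x) - ∫ x, ip (g' x) v * φ x := by
      rw [← integral_sub i3 i4]
      refine integral_congr_ae (Eventually.of_forall fun x => ?_)
      show ip (g x - g' x) v * φ x = ip (g x) v * φ x - ip (g' x) v * φ x
      rw [ip_sub_left]
      ring
    have w1 := h.weak φ hφ v
    have w2 := h'.weak φ hφ v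
    rw [e]
    linarith
  filter_upwards [key 1, key I] with x h1 h2
  simp only [ip_one, ip_I, Pi.zero_apply, Complex.sub_re, Complex.sub_im] at h1 h2
  apply Complex.ext <;> linarith

theorem grad_test {φ : ℂ → ℝ} (hφ : φ ∈ Test Set.univ) : Grad φ (gr φ) := by
  refine ⟨test_memLp hφ 2, test_memLp_gr hφ, fun ψ hψ v => ?_⟩
  rw [integral_mul_fderiv_eq_neg_fderiv_mul_of_integrable
    (integrable_mul2 (test_fderiv_memLp hφ v 2) (test_memLp hψ 2))
    (integrable_mul2 (test_memLp hφ 2) (test_fderiv_memLp hψ v 2))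
    (integrable_mul2 (test_memLp hφ 2) (test_memLp hψ 2))
    (fun x _ => test_differentiable hφ x) (fun x _ => test_differentiable hψ x)]
  simp only [ip_gr]

theorem grad_lipschitz {f : ℂ → ℝ} {K : ℝ≥0} (hK : LipschitzWith K f) (hf : MemLp f 2 volume)
    (hg : MemLp (fun x => ((lineDeriv ℝ f x 1 : ℝ) : ℂ) + ((lineDeriv ℝ f x I : ℝ) : ℂ) * I) 2
      volume) :
    Grad f (fun x => ((lineDeriv ℝ f x 1 : ℝ) : ℂ) + ((lineDeriv ℝ f x I : ℝ) : ℂ) * I) := by
  have key : ∀ φ ∈ Test Set.univ, ∀ v : ℂ,
      ∫ x, f x * fderiv ℝ φ x v = -∫ x, lineDeriv ℝ f x v * φ x := by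
    intro φ hφ v
    obtain ⟨D, hD⟩ := (hφ.1.of_le (by simp) : ContDiff ℝ 1 φ).lipschitzWith_of_hasCompactSupport
      hφ.2.1 (by simp)
    rw [LipschitzWith.integral_lineDeriv_mul_eq (μ := volume) hK hD hφ.2.1 v, ← integral_neg]
    refine integral_congr_ae (Eventually.of_forall fun x => ?_)
    show f x * fderiv ℝ φ x v = -(lineDeriv ℝ φ x (-v) * f x)
    rw [(test_differentiable hφ x).lineDeriv_eq_fderiv, map_neg]
    ring
  refine grad_of hf hg (fun φ hφ => ?_) (fun φ hφ => ?_)
  · rw [key φ hφ 1]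
    simp
  · rw [key φ hφ I]
    simp

/-! ### Affine changes of variables -/

section Affine

variable {F : Type*} [NormedAddCommGroup F] {T : ℂ → ℂ} {c : ℝ≥0∞}

theorem memLp_comp_affine {f : ℂ → F} (hf : MemLp f 2 volume) (hT : Measurable T)
    (hc : Measure.map T volume = c • volume) (hc' : c ≠ ⊤) : MemLp (fun x => f (T x)) 2 volume := by
  have : MemLp f 2 (Measure.map T volume) := by rw [hc]; exact hf.smul_measure hc'
  exact this.comp_of_map hT.aemeasurable

theorem eLpNorm_comp_affine {f : ℂ → F} (hf : AEStronglyMeasurable f volume) (hT : Measurable T)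
    (hc : Measure.map T volume = c • volume) (hc0 : c ≠ 0) :
    eLpNorm (fun x => f (T x)) 2 volume = c ^ (1 / 2 : ℝ) * eLpNorm f 2 volume := by
  have h1 : AEStronglyMeasurable f (Measure.map T volume) := by
    rw [hc]; exact hf.smul_measure c
  have h2 := eLpNorm_map_measure (p := 2) h1 hT.aemeasurable
  rw [hc, eLpNorm_smul_measure_of_ne_zero hc0] at h2
  rw [show (fun x => f (T x)) = f ∘ T from rfl, ← h2]
  simp

theorem integral_comp_affine [NormedSpace ℝ F] (f : ℂ → F) (hT : MeasurableEmbedding T)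
    (hc : Measure.map T volume = c • volume) :
    ∫ x, f (T x) = c.toReal • ∫ x, f x := by
  rw [← hT.integral_map, hc, integral_smul_measure]

theorem grad_comp_affine {f : ℂ → ℝ} {g : ℂ → ℂ} (h : Grad f g) (A : ℂ ≃L[ℝ] ℂ) (b : ℂ)
    (B : ℂ →L[ℝ] ℂ) (hB : ∀ z v, ip (B z) v = ip z (A v))
    (hc : Measure.map (fun x => A x + b) volume = c • volume) (hc' : c ≠ ⊤) :
    Grad (fun x => f (A x + b)) (fun x => B (g (A x + b))) := by
  set T : ℂ ≃ₜ ℂ := A.toHomeomorph.trans (Homeomorph.addRight b) with hT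
  have hTa : ∀ x, T x = A x + b := fun x => rfl
  have hTm : MeasurableEmbedding (fun x => A x + b) := T.measurableEmbedding
  have m1 : MemLp (fun x => f (A x + b)) 2 volume :=
    memLp_comp_affine h.memf hTm.measurable hc hc'
  have m2 : MemLp (fun x => g (A x + b)) 2 volume :=
    memLp_comp_affine h.memg hTm.measurable hc hc'
  refine ⟨m1, B.comp_memLp' m2, fun φ hφ v => ?_⟩
  set ψ : ℂ → ℝ := fun y => φ (A.symm (y - b)) with hψ
  have hψφ : ∀ x, ψ (A x + b) = φ x := by intro x; simp [hψ]
  have hψt : ψ ∈ Test Set.univ := by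
    refine ⟨?_, ?_, Set.subset_univ _⟩
    · exact hφ.1.comp (A.symm.contDiff.comp (contDiff_id.sub contDiff_const))
    · have : ψ = φ ∘ T.symm := by
        funext y
        rfl
      rw [this]
      exact hφ.2.1.comp_homeomorph T.symm
  have hder : ∀ x, fderiv ℝ ψ (A x + b) (A v) = fderiv ℝ φ x v := by
    intro x
    have e : φ = fun x => ψ (A x + b) := by funext x; exact (hψφ x).symm
    have h1 : HasFDerivAt (fun x => A x + b) (A : ℂ →L[ℝ] ℂ) x :=
      A.hasFDerivAt.add_const b
    have h2 : HasFDerivAt (ψ ∘ fun x => A x + b)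
        ((fderiv ℝ ψ (A x + b)).comp (A : ℂ →L[ℝ] ℂ)) x :=
      HasFDerivAt.comp (f := fun x => A x + b) (g := ψ) x
        (test_differentiable hψt (A x + b)).hasFDerivAt h1
    have e' : φ = ψ ∘ fun x => A x + b := e
    rw [e', h2.fderiv]
    rfl
  have e1 : ∫ x, f (A x + b) * fderiv ℝ φ x v = c.toReal • ∫ x, f x * fderiv ℝ ψ x (A v) := by
    rw [← integral_comp_affine (fun x => f x * fderiv ℝ ψ x (A v)) hTm hc]
    refine integral_congr_ae (Eventually.of_forall fun x => ?_)
    show f (A x + b) * fderiv ℝ φ x v = f (A x + b) * fderiv ℝ ψ (A x + b) (A v)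
    rw [hder]
  have e2 : ∫ x, ip (B (g (A x + b))) v * φ x = c.toReal • ∫ x, ip (g x) (A v) * ψ x := by
    rw [← integral_comp_affine (fun x => ip (g x) (A v) * ψ x) hTm hc]
    refine integral_congr_ae (Eventually.of_forall fun x => ?_)
    show ip (B (g (A x + b))) v * φ x = ip (g (A x + b)) (A v) * ψ (A x + b)
    rw [hB, hψφ]
  rw [e1, e2, h.weak ψ hψt (A v), smul_neg]

/-- multiplication by a positive real number -/
noncomputable def dilE (l : ℝ) (hl : 0 < l) : ℂ ≃L[ℝ] ℂ :=
  ContinuousLinearEquiv.smulLeft (Units.mk0 l hl.ne')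

theorem dilE_apply (l : ℝ) (hl : 0 < l) (x : ℂ) : dilE l hl x = (l : ℂ) * x := by
  show (l : ℝ) • x = (l : ℂ) * x
  exact Complex.real_smul

theorem map_dil (l : ℝ) (hl : 0 < l) (b : ℂ) :
    Measure.map (fun x : ℂ => (l : ℂ) * x + b) volume = ENNReal.ofReal (l ^ 2)⁻¹ • volume := by
  have h1 : Measure.map (fun x : ℂ => (l : ℂ) * x + b) volume
      = Measure.map (fun x => x + b) (Measure.map (fun x : ℂ => l • x) volume) := by
    rw [Measure.map_map (measurable_add_const b) (measurable_const_smul l)]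
    rfl
  rw [h1, Measure.map_addHaar_smul volume hl.ne', Measure.map_smul, map_add_right_eq_self]
  congr 2
  rw [abs_of_pos (by positivity), Complex.finrank_real_complex]

theorem grad_dil {f : ℂ → ℝ} {g : ℂ → ℂ} (h : Grad f g) {l : ℝ} (hl : 0 < l) (b : ℂ) :
    Grad (fun x => f ((l : ℂ) * x + b)) (fun x => (l : ℂ) * g ((l : ℂ) * x + b)) := by
  have hc : Measure.map (fun x => dilE l hl x + b) volume = ENNReal.ofReal (l ^ 2)⁻¹ • volume := by
    simp only [dilE_apply]
    exact map_dil l hl b
  have := grad_comp_affine h (dilE l hl) b (dilE l hl : ℂ →L[ℝ] ℂ)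
    (fun z v => by
      show ip (dilE l hl z) v = ip z (dilE l hl v)
      rw [dilE_apply, dilE_apply, ip_ofReal_mul_left, ip_comm z (_ * _), ip_ofReal_mul_left,
        ip_comm v])
    hc ENNReal.ofReal_ne_top
  simp only [ContinuousLinearEquiv.coe_coe, dilE_apply] at this
  exact this

theorem grad_refl {f : ℂ → ℝ} {g : ℂ → ℂ} (h : Grad f g) :
    Grad (fun x => f (1 - (starRingEnd ℂ) x))
      (fun x => -(starRingEnd ℂ) (g (1 - (starRingEnd ℂ) x))) := by
  set A : ℂ ≃L[ℝ] ℂ := Complex.conjCLE.trans (ContinuousLinearEquiv.neg ℝ) with hA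
  have hAa : ∀ x, A x = -(starRingEnd ℂ) x := fun x => rfl
  have hc : Measure.map (fun x => A x + 1) volume = (1 : ℝ≥0∞) • volume := by
    have h1 : Measure.map (fun x => A x + 1) volume
        = Measure.map (fun x => x + 1) (Measure.map (fun x : ℂ => -x)
          (Measure.map (Complex.conjLIE) volume)) := by
      rw [Measure.map_map measurable_neg Complex.conjLIE.continuous.measurable,
        Measure.map_map (measurable_add_const 1)
          (measurable_neg.comp Complex.conjLIE.continuous.measurable)]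
      rfl
    rw [h1, Complex.conjLIE.measurePreserving.map_eq, Measure.map_neg_eq_self,
      map_add_right_eq_self, one_smul]
  have := grad_comp_affine h A 1 (A : ℂ →L[ℝ] ℂ)
    (fun z v => by
      show ip (A z) v = ip z (A v)
      rw [hAa, hAa]
      simp only [ip, Complex.neg_re, Complex.neg_im, Complex.conj_re, Complex.conj_im]
      ring)
    hc ENNReal.one_ne_top
  simp only [ContinuousLinearEquiv.coe_coe, hAa] at this
  have e : ∀ x : ℂ, -(starRingEnd ℂ) x + 1 = 1 - (starRingEnd ℂ) x := fun x => by ring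
  simp only [e] at this
  exact this

end Affine

/-! ### Superpositions -/

theorem grad_super {ι : Type*} [MeasurableSpace ι] {μ : Measure ι} [SFinite μ]
    {F : ι → ℂ → ℝ} {G : ι → ℂ → ℂ} (hF : Measurable (Function.uncurry F))
    (hG : Measurable (Function.uncurry G)) (hFG : ∀ᵐ s ∂μ, Grad (F s) (G s))
    (hf : ∫⁻ s, eLpNorm (F s) 2 volume ∂μ < ⊤) (hg : ∫⁻ s, eLpNorm (G s) 2 volume ∂μ < ⊤) :
    Grad (fun x => ∫ s, F s x ∂μ) (fun x => ∫ s, G s x ∂μ) := by
  have hFs := hF.stronglyMeasurable
  have hGs := hG.stronglyMeasurable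
  refine ⟨(memLp_superposition hFs hf).1, (memLp_superposition hGs hg).1, fun φ hφ v => ?_⟩
  have e1 : ∫ x, (∫ s, F s x ∂μ) * fderiv ℝ φ x v = ∫ s, (∫ x, F s x * fderiv ℝ φ x v) ∂μ := by
    have := integral_superposition (μ := μ) hFs hf (test_fderiv_memLp hφ v 2)
    simp only [smul_eq_mul] at this
    simp only [mul_comm _ (fderiv ℝ φ _ v)]
    exact this
  set L : ℂ →L[ℝ] ℝ := v.re • Complex.reCLM + v.im • Complex.imCLM with hL
  have hLa : ∀ z, L z = ip z v := by
    intro z
    show v.re * z.re + v.im * z.im = ip z v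
    rw [ip]
    ring
  have e2 : ∫ x, ip (∫ s, G s x ∂μ) v * φ x = ∫ s, (∫ x, ip (G s x) v * φ x) ∂μ := by
    have h0 := integral_superposition (μ := μ) hGs hg (test_memLp hφ 2)
    have hi := integrable_superposition (μ := μ) hGs hg (test_memLp hφ 2)
    have i1 : Integrable (fun x => φ x • ∫ s, G s x ∂μ) := by
      refine (integrable_congr (Eventually.of_forall fun x => ?_)).1 hi.integral_prod_right
      exact integral_smul (φ x) (fun s => G s x)
    have i2 : Integrable (fun s => ∫ x, φ x • G s x) μ := hi.integral_prod_left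
    have l1 : ∫ x, ip (∫ s, G s x ∂μ) v * φ x = L (∫ x, φ x • ∫ s, G s x ∂μ) := by
      rw [← L.integral_comp_comm i1]
      refine integral_congr_ae (Eventually.of_forall fun x => ?_)
      show ip (∫ s, G s x ∂μ) v * φ x = L (φ x • ∫ s, G s x ∂μ)
      rw [map_smul, hLa, smul_eq_mul, mul_comm]
    rw [l1, h0, ← L.integral_comp_comm i2]
    refine integral_congr_ae ?_
    filter_upwards [hi.prod_right_ae] with s hs
    rw [← L.integral_comp_comm hs]
    refine integral_congr_ae (Eventually.of_forall fun x => ?_)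
    show L (φ x • G s x) = ip (G s x) v * φ x
    rw [map_smul, hLa, smul_eq_mul, mul_comm]
  rw [e1, e2, ← integral_neg]
  refine integral_congr_ae ?_
  filter_upwards [hFG] with s hs
  exact hs.weak φ hφ v

theorem grb : GrbStatement := by
  refine ⟨fun f f' g g' a b h h' => grad_lin a b h h', fun f g g' h h' => grad_unique h h',
    fun φ hφ => grad_test hφ, fun f K hK hf hg => grad_lipschitz hK hf hg,
    fun f g κ hκ h => ⟨?_, grad_refl h⟩, ?_⟩
  · have := grad_dil h hκ 0
    simpa using this
  · intro F G c hF hG hc hFG hfin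
    have hmF : Measurable (Function.uncurry fun w x => c w * F w x) :=
      (hc.comp measurable_fst).mul hF
    have hmG : Measurable (Function.uncurry fun w x => (c w : ℂ) * G w x) :=
      (Complex.measurable_ofReal.comp (hc.comp measurable_fst)).mul hG
    have nF : ∀ w, eLpNorm (fun x => c w * F w x) 2 volume
        = ENNReal.ofReal |c w| * eLpNorm (F w) 2 volume := by
      intro w
      have := eLpNorm_const_smul (c w) (F w) 2 (volume : Measure ℂ)
      rw [Real.enorm_eq_ofReal_abs] at this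
      exact this
    have nG : ∀ w, eLpNorm (fun x => (c w : ℂ) * G w x) 2 volume
        = ENNReal.ofReal |c w| * eLpNorm (G w) 2 volume := by
      intro w
      have := eLpNorm_const_smul (c w : ℂ) (G w) 2 (volume : Measure ℂ)
      rw [← ofReal_norm, Complex.norm_real, Real.norm_eq_abs] at this
      exact this
    refine grad_super hmF hmG ?_ ?_ ?_
    · filter_upwards [ae_restrict_mem measurableSet_Ioi] with w hw
      have := grad_lin (c w) 0 (hFG w hw) (hFG w hw)
      simpa using this
    · refine lt_of_le_of_lt (lintegral_mono fun w => ?_) hfin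
      rw [nF]
      gcongr
      exact le_self_add
    · refine lt_of_le_of_lt (lintegral_mono fun w => ?_) hfin
      rw [nG]
      gcongr
      exact le_add_self

end Pool.Agent.H16F.H55
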