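import Pool.Agent.Helper55_Fine.Mol

/-!
HARM: density of the test functions in the Sobolev functions vanishing outside of an open convex
set; the weak equation may be tested with all these functions.
-/

namespace Pool.Agent.H16F.H55

open MeasureTheory Complex Filter Topology Pool.Agent.H16Iso Pool.Agent.H62T
open scoped ENNReal NNReal ContDiff

/-- `(f, g)` is a limit in `H¹` of test functions in `D` -/
def Appr (D : Set ℂ) (f : ℂ → ℝ) (g : ℂ → ℂ) : Prop :=
  ∀ ε : ℝ≥0∞, ε ≠ 0 → ∃ ψ ∈ Test D, eLpNorm (ψ - f) 2 volume ≤ ε ∧ eLpNorm (gr ψ - g) 2 volume ≤ ε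

theorem appr_trans {D : Set ℂ} {f : ℂ → ℝ} {g : ℂ → ℂ} (hf : MemLp f 2 volume)
    (hg : MemLp g 2 volume)
    (h : ∀ ε : ℝ≥0∞, ε ≠ 0 → ∃ (f' : ℂ → ℝ) (g' : ℂ → ℂ), MemLp f' 2 volume ∧ MemLp g' 2 volume ∧
      Appr D f' g' ∧ eLpNorm (f' - f) 2 volume ≤ ε ∧ eLpNorm (g' - g) 2 volume ≤ ε) :
    Appr D f g := by
  intro ε hε
  have h2 : ε / 2 ≠ 0 := (ENNReal.half_pos hε).ne'
  obtain ⟨f', g', hf', hg', ha, h3, h4⟩ := h (ε / 2) h2
  obtain ⟨ψ, hψ, h5, h6⟩ := ha (ε / 2) h2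
  refine ⟨ψ, hψ, ?_, ?_⟩
  · have e : ψ - f = (ψ - f') + (f' - f) := by abel
    rw [e]
    refine (eLpNorm_add_le ((test_memLp hψ 2).sub hf').1 (hf'.sub hf).1 (by norm_num)).trans ?_
    exact (add_le_add h5 h3).trans (ENNReal.add_halves ε).le
  · have e : gr ψ - g = (gr ψ - g') + (g' - g) := by abel
    rw [e]
    refine (eLpNorm_add_le ((test_memLp_gr hψ).sub hg').1 (hg'.sub hg).1 (by norm_num)).trans ?_
    exact (add_le_add h6 h4).trans (ENNReal.add_halves ε).le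

theorem appr_compact {D K : Set ℂ} (hD : IsOpen D) (hK : IsCompact K) (hKD : K ⊆ D) {f : ℂ → ℝ}
    {g : ℂ → ℂ} (h : Grad f g) (h0 : ∀ᵐ x, x ∉ K → f x = 0) : Appr D f g := by
  intro ε hε
  obtain ⟨δ, hδ, hδD⟩ := hK.exists_cthickening_subset_open hD hKD
  have h1 := ENNReal.tendsto_nhds_zero.1 (ml_tendsto h.memf) ε (pos_iff_ne_zero.2 hε)
  have h2 := ENNReal.tendsto_nhds_zero.1 (ml_tendsto h.memg) ε (pos_iff_ne_zero.2 hε)
  have h3 : ∀ᶠ n : ℕ in atTop, 1 / ((n : ℝ) + 1) < δ :=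
    (tendsto_one_div_add_atTop_nhds_zero_nat (𝕜 := ℝ)).eventually_lt_const hδ
  obtain ⟨n, h1, h2, h3⟩ := (h1.and (h2.and h3)).exists
  have ht : ml n f ∈ Test D :=
    ml_test h.memf hK h0 ((Metric.cthickening_mono h3.le K).trans hδD)
  refine ⟨ml n f, ht, h1, ?_⟩
  have e : gr (ml n f) =ᵐ[volume] ml n g :=
    grad_unique (grad_test (test_univ ht)) (grad_ml h n)
  rw [eLpNorm_congr_ae (e.sub (EventuallyEq.refl _ g))]
  exact h2

theorem appr_bounded {D : Set ℂ} (hD : IsOpen D) (hconv : Convex ℝ D) {p : ℂ} (hp : p ∈ D)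
    {R : ℝ} {f : ℂ → ℝ} {g : ℂ → ℂ} (h : Grad f g)
    (h0 : ∀ᵐ x, x ∉ D ∩ Metric.closedBall 0 R → f x = 0) : Appr D f g := by
  apply appr_trans h.memf h.memg
  intro ε hε
  have h1 := ENNReal.tendsto_nhds_zero.1 (dmap_tendsto h.memf p) ε (pos_iff_ne_zero.2 hε)
  have h2 := ENNReal.tendsto_nhds_zero.1 (dmap_grad_tendsto h.memg p) ε (pos_iff_ne_zero.2 hε)
  have h3 : ∀ᶠ s : ℝ in 𝓝[>] 0, 0 < s := self_mem_nhdsWithin
  obtain ⟨s, h1, h2, hs⟩ := ((h1.filter_mono nhdsWithin_le_nhds).and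
    ((h2.filter_mono nhdsWithin_le_nhds).and h3)).exists
  have hG := grad_dmap h p s
  refine ⟨_, _, hG.memf, hG.memg, ?_, h1, h2⟩
  set K : Set ℂ := dmap p (-s) '' closure (D ∩ Metric.closedBall 0 R) with hK
  have hbc : IsCompact (closure (D ∩ Metric.closedBall (0 : ℂ) R)) :=
    (Metric.isBounded_closedBall.subset Set.inter_subset_right).isCompact_closure
  have hKc : IsCompact K := hbc.image (dmap_continuous_right p (-s))
  refine appr_compact hD hKc ?_ hG ?_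
  · rintro _ ⟨y, hy, rfl⟩
    have hy' : y ∈ closure D := closure_mono Set.inter_subset_left hy
    have he : Real.exp (-s) < 1 := by
      rw [Real.exp_lt_one_iff]
      linarith
    have := hconv.combo_interior_closure_mem_interior (x := p) (y := y)
      (by rwa [hD.interior_eq]) hy' (a := 1 - Real.exp (-s)) (b := Real.exp (-s))
      (by linarith) (Real.exp_pos _).le (by ring)
    rw [hD.interior_eq] at this
    have e : dmap p (-s) y = (1 - Real.exp (-s)) • p + Real.exp (-s) • y := by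
      simp only [dmap, Complex.real_smul, Complex.ofReal_sub, Complex.ofReal_one]
      ring
    rw [e]
    exact this
  · have hq : Measure.QuasiMeasurePreserving (dmap p s) volume volume := by
      refine ⟨(dmap_continuous_right p s).measurable, ?_⟩
      rw [map_dmap]
      exact Measure.smul_absolutelyContinuous
    filter_upwards [hq.ae h0] with x hx hxK
    apply hx
    intro hx2
    exact hxK ⟨dmap p s x, subset_closure hx2, dmap_inv p s x⟩

theorem appr_convex {D : Set ℂ} (hD : IsOpen D) (hconv : Convex ℝ D) (hne : D.Nonempty)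
    {f : ℂ → ℝ} {g : ℂ → ℂ} (h : Grad f g) (h0 : ∀ᵐ x, x ∉ D → f x = 0) : Appr D f g := by
  obtain ⟨p, hp⟩ := hne
  apply appr_trans h.memf h.memg
  intro ε hε
  have h1 := ENNReal.tendsto_nhds_zero.1 (cutoff_tendsto h.memf) ε (pos_iff_ne_zero.2 hε)
  have h2 := ENNReal.tendsto_nhds_zero.1 (cutoff_grad_tendsto h.memf h.memg) ε
    (pos_iff_ne_zero.2 hε)
  obtain ⟨n, h1, h2⟩ := (h1.and h2).exists
  have hG := grad_cutoff (chi_test n) h
  refine ⟨_, _, hG.memf, hG.memg, ?_, h1, h2⟩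
  apply appr_bounded (R := 2 * ((n : ℝ) + 1)) hD hconv hp hG
  filter_upwards [h0] with x hx hx2
  by_cases hxD : x ∈ D
  · have : ¬ ‖x‖ ≤ 2 * ((n : ℝ) + 1) := by
      intro h
      exact hx2 ⟨hxD, by rwa [mem_closedBall_zero_iff]⟩
    rw [chi_eq_zero (not_le.1 this).le, zero_mul]
  · rw [hx hxD, mul_zero]

/-- a sequence of test functions converging in `H¹` -/
theorem exists_test_seq {D : Set ℂ} (hD : IsOpen D) (hconv : Convex ℝ D) (hne : D.Nonempty)
    {f : ℂ → ℝ} {g : ℂ → ℂ} (h : Grad f g) (h0 : ∀ᵐ x, x ∉ D → f x = 0) :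
    ∃ ψ : ℕ → ℂ → ℝ, (∀ n, ψ n ∈ Test D) ∧
      Tendsto (fun n => eLpNorm (ψ n - f) 2 volume) atTop (𝓝 0) ∧
      Tendsto (fun n => eLpNorm (gr (ψ n) - g) 2 volume) atTop (𝓝 0) := by
  have ha := appr_convex hD hconv hne h h0
  have h1 : ∀ n : ℕ, ((n : ℝ≥0∞) + 1)⁻¹ ≠ 0 := by
    intro n
    apply ENNReal.inv_ne_zero.2
    finiteness
  choose ψ hψ h2 h3 using fun n : ℕ => ha _ (h1 n)
  have h4 : Tendsto (fun n : ℕ => ((n : ℝ≥0∞) + 1)⁻¹) atTop (𝓝 0) := by
    have := (tendsto_add_atTop_iff_nat 1).2 ENNReal.tendsto_inv_nat_nhds_zero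
    simpa using this
  exact ⟨ψ, hψ, tendsto_of_tendsto_of_tendsto_of_le_of_le tendsto_const_nhds h4
    (fun n => zero_le) h2, tendsto_of_tendsto_of_tendsto_of_le_of_le tendsto_const_nhds h4
    (fun n => zero_le) h3⟩

/-- pairing with an `L²` function is continuous -/
theorem tendsto_pair {h f : ℂ → ℝ} {ψ : ℕ → ℂ → ℝ} (hh : MemLp h 2 volume) (hf : MemLp f 2 volume)
    (hψ : ∀ n, MemLp (ψ n) 2 volume) (ht : Tendsto (fun n => eLpNorm (ψ n - f) 2 volume) atTop (𝓝 0)) :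
    Tendsto (fun n => ∫ x, h x * ψ n x) atTop (𝓝 (∫ x, h x * f x)) := by
  rw [tendsto_iff_edist_tendsto_0]
  have h1 : Tendsto (fun n => eLpNorm h 2 volume * eLpNorm (ψ n - f) 2 volume) atTop (𝓝 0) := by
    have := ENNReal.Tendsto.const_mul ht (a := eLpNorm h 2 volume) (Or.inr hh.2.ne)
    rwa [mul_zero] at this
  refine tendsto_of_tendsto_of_tendsto_of_le_of_le tendsto_const_nhds h1 (fun n => zero_le) ?_
  intro n
  show edist (∫ x, h x * ψ n x) (∫ x, h x * f x) ≤ _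
  rw [edist_eq_enorm_sub, ← integral_sub (integrable_mul2 hh (hψ n)) (integrable_mul2 hh hf)]
  refine (enorm_integral_le_lintegral_enorm _).trans ?_
  have h2 := cs_lintegral volume hh.1.enorm ((hψ n).sub hf).1.enorm
  show _ ≤ eLpNorm h 2 volume * eLpNorm (ψ n - f) 2 volume
  rw [eLpNorm_two, eLpNorm_two]
  refine le_trans (le_of_eq ?_) h2
  refine lintegral_congr fun x => ?_
  rw [← enorm_mul, Pi.sub_apply]
  congr 1
  ring

theorem tendsto_re {g : ℂ → ℂ} {γ : ℕ → ℂ → ℂ}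
    (ht : Tendsto (fun n => eLpNorm (γ n - g) 2 volume) atTop (𝓝 0)) :
    Tendsto (fun n => eLpNorm ((fun x => (γ n x).re) - fun x => (g x).re) 2 volume) atTop (𝓝 0) := by
  refine tendsto_of_tendsto_of_tendsto_of_le_of_le tendsto_const_nhds ht (fun n => zero_le) ?_
  intro n
  refine eLpNorm_mono fun x => ?_
  simp only [Pi.sub_apply, ← Complex.sub_re]
  exact Complex.abs_re_le_norm _

theorem tendsto_im {g : ℂ → ℂ} {γ : ℕ → ℂ → ℂ}
    (ht : Tendsto (fun n => eLpNorm (γ n - g) 2 volume) atTop (𝓝 0)) :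
    Tendsto (fun n => eLpNorm ((fun x => (γ n x).im) - fun x => (g x).im) 2 volume) atTop (𝓝 0) := by
  refine tendsto_of_tendsto_of_tendsto_of_le_of_le tendsto_const_nhds ht (fun n => zero_le) ?_
  intro n
  refine eLpNorm_mono fun x => ?_
  simp only [Pi.sub_apply, ← Complex.sub_im]
  exact Complex.abs_im_le_norm _

theorem integral_ip_eq {g h : ℂ → ℂ} (hg : MemLp g 2 volume) (hh : MemLp h 2 volume) :
    ∫ x, ip (g x) (h x) = (∫ x, (g x).re * (h x).re) + ∫ x, (g x).im * (h x).im := by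
  rw [← integral_add (integrable_mul2 (memLp_re hg) (memLp_re hh))
    (integrable_mul2 (memLp_im hg) (memLp_im hh))]
  rfl

theorem tendsto_pair_ip {h g : ℂ → ℂ} {γ : ℕ → ℂ → ℂ} (hh : MemLp h 2 volume)
    (hg : MemLp g 2 volume) (hγ : ∀ n, MemLp (γ n) 2 volume)
    (ht : Tendsto (fun n => eLpNorm (γ n - g) 2 volume) atTop (𝓝 0)) :
    Tendsto (fun n => ∫ x, ip (h x) (γ n x)) atTop (𝓝 (∫ x, ip (h x) (g x))) := by
  rw [integral_ip_eq hh hg]
  have h1 := tendsto_pair (memLp_re hh) (memLp_re hg) (fun n => memLp_re (hγ n)) (tendsto_re ht)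
  have h2 := tendsto_pair (memLp_im hh) (memLp_im hg) (fun n => memLp_im (hγ n)) (tendsto_im ht)
  refine (h1.add h2).congr fun n => ?_
  rw [integral_ip_eq hh (hγ n)]

/-- integration by parts: the Laplacian of a test function -/
theorem integral_lap {S : ℂ → ℝ} {gS : ℂ → ℂ} (h : Grad S gS) {φ : ℂ → ℝ}
    (hφ : φ ∈ Test Set.univ) : ∫ x, S x * lap φ x = -∫ x, ip (gS x) (gr φ x) := by
  have h1 := h.weak _ (test_fderiv hφ 1) 1
  have h2 := h.weak _ (test_fderiv hφ I) I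
  have i1 := integrable_mul2 h.memf (test_fderiv_memLp (test_fderiv hφ 1) 1 2)
  have i2 := integrable_mul2 h.memf (test_fderiv_memLp (test_fderiv hφ I) I 2)
  have e1 : ∫ x, S x * lap φ x = (∫ x, S x * fderiv ℝ (fun y => fderiv ℝ φ y 1) x 1)
      + ∫ x, S x * fderiv ℝ (fun y => fderiv ℝ φ y I) x I := by
    rw [← integral_add i1 i2]
    refine integral_congr_ae (Eventually.of_forall fun x => ?_)
    exact mul_add _ _ _
  rw [e1, h1, h2, integral_ip_eq h.memg (test_memLp_gr hφ)]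
  simp only [ip_one, ip_I, gr_re, gr_im]
  ring

theorem lap_memLp {φ : ℂ → ℝ} (hφ : φ ∈ Test Set.univ) : MemLp (lap φ) 2 volume :=
  (test_fderiv_memLp (test_fderiv hφ 1) 1 2).add (test_fderiv_memLp (test_fderiv hφ I) I 2)

/-- the weak equation, for test functions, in first-order form -/
theorem weak_first_order {κ : ℝ} {S : ℂ → ℝ} {gS : ℂ → ℂ} (h : Grad S gS) {φ : ℂ → ℝ}
    (hφ : φ ∈ Test Set.univ) : ∫ x, S x * (κ ^ 2 * φ x - lap φ x)
      = (∫ x, ip (gS x) (gr φ x)) + κ ^ 2 * ∫ x, S x * φ x := by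
  have i1 := integrable_mul2 h.memf (test_memLp hφ 2)
  have i2 := integrable_mul2 h.memf (lap_memLp hφ)
  have e : ∫ x, S x * (κ ^ 2 * φ x - lap φ x) = κ ^ 2 * (∫ x, S x * φ x) - ∫ x, S x * lap φ x := by
    rw [← integral_const_mul, ← integral_sub (i1.const_mul _) i2]
    refine integral_congr_ae (Eventually.of_forall fun x => ?_)
    show S x * (κ ^ 2 * φ x - lap φ x) = κ ^ 2 * (S x * φ x) - S x * lap φ x
    ring
  rw [e, integral_lap h hφ]
  ring

theorem harm : HarmStatement := by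
  intro κ D _ hD hconv hne S f gS hS hf heq φ gφ hφ h0
  obtain ⟨ψ, hψ, t1, t2⟩ := exists_test_seq hD hconv hne hφ h0
  have hψm : ∀ n, MemLp (ψ n) 2 volume := fun n => test_memLp (hψ n) 2
  have hψg : ∀ n, MemLp (gr (ψ n)) 2 volume := fun n => test_memLp_gr (hψ n)
  have a1 := tendsto_pair_ip hS.memg hφ.memg hψg t2
  have a2 := (tendsto_pair hS.memf hφ.memf hψm t1).const_mul (κ ^ 2)
  have a3 := tendsto_pair hf hφ.memf hψm t1
  refine tendsto_nhds_unique (a1.add a2) (a3.congr fun n => ?_)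
  rw [← heq (ψ n) (hψ n), weak_first_order hS (test_univ (hψ n))]

end Pool.Agent.H16F.H55
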