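import Pool.Agent.Helper55_Fine.Harm

/-!
RES: existence, uniqueness and symmetry of the resolvent of the Dirichlet Laplacian.
-/

namespace Pool.Agent.H16F.H55

open MeasureTheory Complex Filter Topology Pool.Agent.H16Iso Pool.Agent.H62T
open scoped ENNReal NNReal ContDiff

/-- pairs of a real and a complex number as a Euclidean space -/
abbrev RC := WithLp 2 (ℝ × ℂ)

/-- the Hilbert space of pairs of a real and a complex square integrable function -/
noncomputable abbrev HH := Lp RC 2 (volume : Measure ℂ)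

/-- the function with the components `a`, `b` -/
noncomputable def mk (a : ℂ → ℝ) (b : ℂ → ℂ) (x : ℂ) : RC := WithLp.toLp 2 (a x, b x)

/-- first component -/
noncomputable def L1 : RC →L[ℝ] ℝ := WithLp.fstL 2 ℝ ℝ ℂ

/-- second component -/
noncomputable def L2 : RC →L[ℝ] ℂ := WithLp.sndL 2 ℝ ℝ ℂ

/-- the isomorphism from the product -/
noncomputable def JJ : ℝ × ℂ →L[ℝ] RC :=
  ((WithLp.prodContinuousLinearEquiv 2 ℝ ℝ ℂ).symm : ℝ × ℂ →L[ℝ] RC)

theorem inner_RC (z w : RC) : inner ℝ z w = z.fst * w.fst + ip z.snd w.snd := by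
  rw [WithLp.prod_inner_apply, ← ip_eq_inner]
  congr 1
  exact mul_comm _ _

theorem memLp_mk {a : ℂ → ℝ} {b : ℂ → ℂ} (ha : MemLp a 2 volume) (hb : MemLp b 2 volume) :
    MemLp (mk a b) 2 volume := by
  have h1 := (JJ.comp (ContinuousLinearMap.inl ℝ ℝ ℂ)).comp_memLp' ha
  have h2 := (JJ.comp (ContinuousLinearMap.inr ℝ ℝ ℂ)).comp_memLp' hb
  refine (h1.add h2).ae_eq (Eventually.of_forall fun x => ?_)
  show JJ (ContinuousLinearMap.inl ℝ ℝ ℂ (a x)) + JJ (ContinuousLinearMap.inr ℝ ℝ ℂ (b x)) = _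
  rw [← map_add]
  simp only [ContinuousLinearMap.inl_apply, ContinuousLinearMap.inr_apply, Prod.mk_add_mk,
    add_zero, zero_add]
  rfl

theorem memLp_fst (F : HH) : MemLp (fun x => (F x).fst) 2 volume := L1.comp_memLp' (Lp.memLp F)

theorem memLp_snd (F : HH) : MemLp (fun x => (F x).snd) 2 volume := L2.comp_memLp' (Lp.memLp F)

theorem inner_mk {a : ℂ → ℝ} {b : ℂ → ℂ} (ha : MemLp a 2 volume) (hb : MemLp b 2 volume) (F : HH) :
    inner ℝ ((memLp_mk ha hb).toLp (mk a b)) F
      = (∫ x, a x * (F x).fst) + ∫ x, ip (b x) (F x).snd := by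
  rw [MeasureTheory.L2.inner_def, ← integral_add (integrable_mul2 ha (memLp_fst F))
    (integrable_ip hb (memLp_snd F))]
  refine integral_congr_ae ?_
  filter_upwards [(memLp_mk ha hb).coeFn_toLp] with x hx
  rw [hx, inner_RC]
  rfl

theorem inner_mk_mk {a a' : ℂ → ℝ} {b b' : ℂ → ℂ} (ha : MemLp a 2 volume) (hb : MemLp b 2 volume)
    (ha' : MemLp a' 2 volume) (hb' : MemLp b' 2 volume) :
    inner ℝ ((memLp_mk ha hb).toLp (mk a b)) ((memLp_mk ha' hb').toLp (mk a' b'))
      = (∫ x, a x * a' x) + ∫ x, ip (b x) (b' x) := by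
  rw [inner_mk ha hb]
  congr 1
  · refine integral_congr_ae ?_
    filter_upwards [(memLp_mk ha' hb').coeFn_toLp] with x hx
    rw [hx]
    rfl
  · refine integral_congr_ae ?_
    filter_upwards [(memLp_mk ha' hb').coeFn_toLp] with x hx
    rw [hx]
    rfl

theorem memLp_smul_const {a : ℂ → ℝ} (ha : MemLp a 2 volume) (v : ℂ) :
    MemLp (fun x => (a x : ℂ) * v) 2 volume := ha.ofReal.mul_const v

/-- the orthogonality conditions -/
def conds (κ : ℝ) (D : Set ℂ) : Set HH :=
  {F | ∃ φ ∈ Test Set.univ, ∃ v : ℂ, F =ᵐ[volume] mk (fun x => κ⁻¹ * fderiv ℝ φ x v)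
      (fun x => (φ x : ℂ) * v)} ∪
  {F | ∃ h : ℂ → ℝ, (∀ x ∈ D, h x = 0) ∧ F =ᵐ[volume] mk h 0}

/-- the space of the pairs `(κ f, grad f)` with `f` in `H¹` vanishing outside of `D` -/
noncomputable def VD (κ : ℝ) (D : Set ℂ) : Submodule ℝ HH := (Submodule.span ℝ (conds κ D))ᗮ

theorem mem_VD {κ : ℝ} {D : Set ℂ} {F : HH} : F ∈ VD κ D ↔ ∀ A ∈ conds κ D, inner ℝ A F = 0 := by
  constructor
  · intro h A hA
    exact (Submodule.mem_orthogonal _ _).1 h A (Submodule.subset_span hA)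
  · intro h
    have h1 : Submodule.span ℝ (conds κ D) ≤ (Submodule.span ℝ {F})ᗮ := by
      rw [Submodule.span_le]
      intro A hA
      exact Submodule.mem_orthogonal_singleton_iff_inner_left.2 (h A hA)
    exact (Submodule.mem_orthogonal _ _).2 fun A hA =>
      Submodule.mem_orthogonal_singleton_iff_inner_left.1 (h1 hA)

theorem ip_mul_comm (a : ℝ) (v z : ℂ) : ip ((a : ℂ) * v) z = ip z v * a := by
  rw [ip_ofReal_mul_left, ip_comm, mul_comm]

theorem grad_of_mem {κ : ℝ} {D : Set ℂ} (hD : MeasurableSet D) {F : HH} (hF : F ∈ VD κ D) :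
    Grad (fun x => κ⁻¹ * (F x).fst) (fun x => (F x).snd) ∧ ∀ᵐ x, x ∉ D → (F x).fst = 0 := by
  rw [mem_VD] at hF
  constructor
  · refine ⟨(memLp_fst F).const_mul _, memLp_snd F, fun φ hφ v => ?_⟩
    have m1 : MemLp (fun x => κ⁻¹ * fderiv ℝ φ x v) 2 volume :=
      (test_fderiv_memLp hφ v 2).const_mul _
    have m2 := memLp_smul_const (test_memLp hφ 2) v
    have h := hF _ (Or.inl ⟨φ, hφ, v, (memLp_mk m1 m2).coeFn_toLp⟩)
    rw [inner_mk m1 m2] at h
    have e1 : ∫ x, κ⁻¹ * fderiv ℝ φ x v * (F x).fst = ∫ x, κ⁻¹ * (F x).fst * fderiv ℝ φ x v := by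
      refine integral_congr_ae (Eventually.of_forall fun x => ?_)
      show κ⁻¹ * fderiv ℝ φ x v * (F x).fst = κ⁻¹ * (F x).fst * fderiv ℝ φ x v
      ring
    have e2 : ∫ x, ip ((φ x : ℂ) * v) (F x).snd = ∫ x, ip (F x).snd v * φ x := by
      refine integral_congr_ae (Eventually.of_forall fun x => ?_)
      exact ip_mul_comm _ _ _
    rw [e1, e2] at h
    linarith only [h]
  · set h : ℂ → ℝ := Dᶜ.indicator fun x => (F x).fst with hh
    have mh : MemLp h 2 volume := (memLp_fst F).indicator hD.compl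
    have m0 : MemLp (0 : ℂ → ℂ) 2 volume := MemLp.zero
    have h1 := hF _ (Or.inr ⟨h, fun x hx => by simp [hh, hx], (memLp_mk mh m0).coeFn_toLp⟩)
    rw [inner_mk mh m0] at h1
    have e2 : ∫ x, ip ((0 : ℂ → ℂ) x) (F x).snd = 0 := by
      simp [ip]
    have e1 : ∫ x, h x * (F x).fst = ∫ x, h x * h x := by
      refine integral_congr_ae (Eventually.of_forall fun x => ?_)
      show h x * (F x).fst = h x * h x
      by_cases hx : x ∈ D
      · simp [hh, hx]
      · simp [hh, hx]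
    rw [e1, e2, add_zero, integral_eq_zero_iff_of_nonneg (fun x => mul_self_nonneg _)
      (integrable_mul2 mh mh)] at h1
    filter_upwards [h1] with x hx hxD
    have : h x = 0 := by simpa using hx
    simpa [hh, hxD] using this

theorem mem_of_grad {κ : ℝ} (hκ : 0 < κ) {D : Set ℂ} {f : ℂ → ℝ} {g : ℂ → ℂ} (h : Grad f g)
    (h0 : ∀ᵐ x, x ∉ D → f x = 0) :
    (memLp_mk (h.memf.const_mul κ) h.memg).toLp (mk (fun x => κ * f x) g) ∈ VD κ D := by
  have mf := h.memf.const_mul κ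
  rw [mem_VD]
  rintro A (⟨φ, hφ, v, hA⟩ | ⟨a, ha, hA⟩)
  · rw [real_inner_comm, inner_mk mf h.memg]
    have e1 : ∫ x, κ * f x * (A x).fst = ∫ x, f x * fderiv ℝ φ x v := by
      refine integral_congr_ae ?_
      filter_upwards [hA] with x hx
      rw [hx]
      show κ * f x * (κ⁻¹ * fderiv ℝ φ x v) = f x * fderiv ℝ φ x v
      field_simp
    have e2 : ∫ x, ip (g x) (A x).snd = ∫ x, ip (g x) v * φ x := by
      refine integral_congr_ae ?_
      filter_upwards [hA] with x hx
      rw [hx]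
      show ip (g x) ((φ x : ℂ) * v) = ip (g x) v * φ x
      rw [ip_comm, ip_mul_comm]
    rw [e1, e2, h.weak φ hφ v]
    ring
  · rw [real_inner_comm, inner_mk mf h.memg]
    have e1 : ∫ x, κ * f x * (A x).fst = 0 := by
      refine integral_eq_zero_of_ae ?_
      filter_upwards [hA, h0] with x hx hx0
      rw [hx]
      show κ * f x * a x = 0
      by_cases hxD : x ∈ D
      · rw [ha x hxD, mul_zero]
      · rw [hx0 hxD, mul_zero, zero_mul]
    have e2 : ∫ x, ip (g x) (A x).snd = 0 := by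
      refine integral_eq_zero_of_ae ?_
      filter_upwards [hA] with x hx
      rw [hx]
      show ip (g x) 0 = 0
      simp [ip]
    rw [e1, e2, add_zero]

theorem exists_sol {κ : ℝ} {D : Set ℂ} (hκ : 0 < κ) (hD : IsOpen D) {f : ℂ → ℝ}
    (hf : MemLp f 2 volume) : ∃ u g, Sol κ D f u ∧ Grad u g := by
  have m1 : MemLp (fun x => κ⁻¹ * f x) 2 volume := hf.const_mul _
  have m0 : MemLp (0 : ℂ → ℂ) 2 volume := MemLp.zero
  have : (VD κ D).HasOrthogonalProjection := by unfold VD; infer_instance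
  set F0 : HH := (memLp_mk m1 m0).toLp (mk (fun x => κ⁻¹ * f x) 0) with hF0
  set U : HH := (VD κ D).starProjection F0 with hU
  have hUm : U ∈ VD κ D := Submodule.starProjection_apply_mem _ _
  obtain ⟨hG, h0⟩ := grad_of_mem hD.measurableSet hUm
  refine ⟨fun x => κ⁻¹ * (U x).fst, fun x => (U x).snd, ⟨⟨⟨_, hG⟩, ?_⟩, ?_⟩, hG⟩
  · filter_upwards [h0] with x hx hxD
    rw [hx hxD, mul_zero]
  · intro φ hφ
    have hφu := test_univ hφ
    have hW := mem_of_grad hκ (D := D) (grad_test hφu)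
      (Eventually.of_forall fun x hx => image_eq_zero_of_notMem_tsupport fun h => hx (hφ.2.2 h))
    have h1 := Submodule.starProjection_inner_eq_zero F0 _ hW
    rw [← hU, inner_sub_left, sub_eq_zero, real_inner_comm, real_inner_comm (_ : HH) U] at h1
    have mφ : MemLp (fun x => κ * φ x) 2 volume := (test_memLp hφ 2).const_mul κ
    rw [hF0, inner_mk_mk mφ (test_memLp_gr hφ) m1 m0, inner_mk mφ (test_memLp_gr hφ)] at h1
    have e0 : ∫ x, ip (gr φ x) ((0 : ℂ → ℂ) x) = 0 := by simp [ip]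
    have e1 : ∫ x, κ * φ x * (κ⁻¹ * f x) = ∫ x, f x * φ x := by
      refine integral_congr_ae (Eventually.of_forall fun x => ?_)
      show κ * φ x * (κ⁻¹ * f x) = f x * φ x
      field_simp
    have e2 : ∫ x, κ * φ x * (U x).fst = κ ^ 2 * ∫ x, κ⁻¹ * (U x).fst * φ x := by
      rw [← integral_const_mul]
      refine integral_congr_ae (Eventually.of_forall fun x => ?_)
      show κ * φ x * (U x).fst = κ ^ 2 * (κ⁻¹ * (U x).fst * φ x)
      field_simp
    have e3 : ∫ x, ip (gr φ x) (U x).snd = ∫ x, ip (U x).snd (gr φ x) := by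
      simp only [ip_comm]
    rw [e0, e1, e2, add_zero, e3] at h1
    rw [weak_first_order hG hφu, h1]
    ring

theorem sol_form {κ : ℝ} {D : Set ℂ} (hκ : 0 < κ) (hD : IsOpen D) (hc : Convex ℝ D)
    (hne : D.Nonempty) {f u : ℂ → ℝ} {gu : ℂ → ℂ} (hf : MemLp f 2 volume) (hu : Sol κ D f u)
    (hgu : Grad u gu) {φ : ℂ → ℝ} {gφ : ℂ → ℂ} (hφ : Grad φ gφ) (h0 : ∀ᵐ x, x ∉ D → φ x = 0) :
    (∫ x, ip (gu x) (gφ x)) + κ ^ 2 * (∫ x, u x * φ x) = ∫ x, f x * φ x :=
  harm κ D hκ hD hc hne u f gu hgu hf hu.eq φ gφ hφ h0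

theorem res : ResStatement := by
  intro κ D hκ hD hc hne
  refine ⟨fun f hf => ?_, fun f u v hf hu hv => ?_, fun f g u v hf hg hu hv => ?_⟩
  · obtain ⟨u, _, hu, -⟩ := exists_sol (D := D) hκ hD hf
    exact ⟨u, hu⟩
  · obtain ⟨⟨gu, hgu⟩, hu0⟩ := hu.mem
    obtain ⟨⟨gv, hgv⟩, hv0⟩ := hv.mem
    have hw := grad_lin 1 (-1) hgu hgv
    have hw0 : ∀ᵐ x, x ∉ D → 1 * u x + -1 * v x = 0 := by
      filter_upwards [hu0, hv0] with x h1 h2 hx
      rw [h1 hx, h2 hx]
      ring
    have h1 := sol_form hκ hD hc hne hf hu hgu hw hw0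
    have h2 := sol_form hκ hD hc hne hf hv hgv hw hw0
    set w : ℂ → ℝ := fun x => 1 * u x + -1 * v x with hwdef
    set gw : ℂ → ℂ := fun x => ((1 : ℝ) : ℂ) * gu x + ((-1 : ℝ) : ℂ) * gv x with hgw
    have e1 : ∫ x, ip (gw x) (gw x) = (∫ x, ip (gu x) (gw x)) - ∫ x, ip (gv x) (gw x) := by
      rw [← integral_sub (integrable_ip hgu.memg hw.memg) (integrable_ip hgv.memg hw.memg)]
      refine integral_congr_ae (Eventually.of_forall fun x => ?_)
      show ip (gw x) (gw x) = ip (gu x) (gw x) - ip (gv x) (gw x)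
      conv_lhs => rw [hgw, ip_add_left, ip_ofReal_mul_left, ip_ofReal_mul_left]
      ring
    have e2 : ∫ x, w x * w x = (∫ x, u x * w x) - ∫ x, v x * w x := by
      rw [← integral_sub (integrable_mul2 hgu.memf hw.memf) (integrable_mul2 hgv.memf hw.memf)]
      refine integral_congr_ae (Eventually.of_forall fun x => ?_)
      show w x * w x = u x * w x - v x * w x
      simp only [hwdef]
      ring
    have h3 : (∫ x, ip (gw x) (gw x)) + κ ^ 2 * ∫ x, w x * w x = 0 := by
      rw [e1, e2]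
      linarith only [h1, h2]
    have h4 : 0 ≤ ∫ x, ip (gw x) (gw x) := by
      refine integral_nonneg fun x => ?_
      rw [Pi.zero_apply, ip_self]
      positivity
    have h5 : 0 ≤ ∫ x, w x * w x := integral_nonneg fun x => mul_self_nonneg _
    have h6 : ∫ x, w x * w x = 0 := by
      have : 0 < κ ^ 2 := by positivity
      nlinarith only [h5, h3, h4, this]
    rw [integral_eq_zero_iff_of_nonneg (fun x => mul_self_nonneg _)
      (integrable_mul2 hw.memf hw.memf)] at h6
    filter_upwards [h6] with x hx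
    have h7 : w x = 0 := by simpa using hx
    simp only [hwdef] at h7
    linarith
  · obtain ⟨⟨gu, hgu⟩, hu0⟩ := hu.mem
    obtain ⟨⟨gv, hgv⟩, hv0⟩ := hv.mem
    have h1 := sol_form hκ hD hc hne hf hu hgu hgv hv0
    have h2 := sol_form hκ hD hc hne hg hv hgv hgu hu0
    have e1 : ∫ x, ip (gv x) (gu x) = ∫ x, ip (gu x) (gv x) := by
      refine integral_congr_ae (Eventually.of_forall fun x => ?_)
      exact ip_comm _ _
    have e2 : ∫ x, v x * u x = ∫ x, u x * v x := by
      refine integral_congr_ae (Eventually.of_forall fun x => ?_)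
      exact mul_comm _ _
    have e3 : ∫ x, u x * g x = ∫ x, g x * u x := by
      refine integral_congr_ae (Eventually.of_forall fun x => ?_)
      exact mul_comm _ _
    rw [e3, ← h2, e1, e2, h1]

end Pool.Agent.H16F.H55
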