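import Pool.Agent.Helper55_Fine.Grb
import Pool.Agent.Helper16_Iso.Density

/-!
Cutoffs, dilations and mollifications of Sobolev functions converge in `H¹`.
-/

namespace Pool.Agent.H16F.H55

open MeasureTheory Complex Filter Topology Pool.Agent.H16Iso Pool.Agent.H62T
open scoped ENNReal NNReal ContDiff

variable {E : Type*} [NormedAddCommGroup E]

/-- dominated convergence in `L²`, with a common compact support -/
theorem conv_dom {ι : Type*} {l : Filter ι} [l.IsCountablyGenerated] {F : ι → ℂ → E}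
    {K : Set ℂ} (hK : IsCompact K) {M : ℝ}
    (hm : ∀ᶠ n in l, AEStronglyMeasurable (F n) volume) (hb : ∀ᶠ n in l, ∀ x, ‖F n x‖ ≤ M)
    (h0 : ∀ᶠ n in l, ∀ x, x ∉ K → F n x = 0) (hp : ∀ x, Tendsto (fun n => F n x) l (𝓝 0)) :
    Tendsto (fun n => eLpNorm (F n) 2 volume) l (𝓝 0) := by
  have hbi : Integrable (K.indicator fun _ : ℂ => M ^ 2) := by
    rw [integrable_indicator_iff hK.measurableSet]
    exact integrableOn_const hK.measure_lt_top.ne
  have hbd : ∀ᶠ n in l, ∀ x, ‖(‖F n x‖ ^ 2)‖ ≤ K.indicator (fun _ => M ^ 2) x := by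
    filter_upwards [hb, h0] with n hn hn0 x
    by_cases hx : x ∈ K
    · rw [Set.indicator_of_mem hx, Real.norm_of_nonneg (by positivity)]
      exact pow_le_pow_left₀ (norm_nonneg _) (hn x) 2
    · rw [hn0 x hx]
      simp [hx]
  have h1 : Tendsto (fun n => ∫ x, ‖F n x‖ ^ 2) l (𝓝 (∫ _ : ℂ, (0 : ℝ))) := by
    apply tendsto_integral_filter_of_dominated_convergence (K.indicator fun _ => M ^ 2)
    · filter_upwards [hm] with n hn
      exact (hn.norm.pow 2)
    · filter_upwards [hbd] with n hn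
      exact Eventually.of_forall hn
    · exact hbi
    · refine Eventually.of_forall fun x => ?_
      have := ((hp x).norm).pow 2
      simpa using this
  rw [integral_zero] at h1
  have h2 := ENNReal.tendsto_ofReal h1
  rw [ENNReal.ofReal_zero] at h2
  have h3 := (ENNReal.continuous_rpow_const (y := 1 / 2)).tendsto 0 |>.comp h2
  rw [ENNReal.zero_rpow_of_pos (by norm_num)] at h3
  refine h3.congr' ?_
  filter_upwards [hm, hbd] with n hn hn2
  rw [eLpNorm_two]
  show ENNReal.ofReal (∫ x, ‖F n x‖ ^ 2) ^ (1 / 2 : ℝ) = _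
  congr 1
  have hint : Integrable (fun x => ‖F n x‖ ^ 2) :=
    hbi.mono' (hn.norm.pow 2) (Eventually.of_forall hn2)
  rw [ofReal_integral_eq_lintegral_ofReal hint (Eventually.of_forall fun x => by positivity)]
  refine lintegral_congr fun x => ?_
  rw [ENNReal.ofReal_pow (norm_nonneg _), ofReal_norm]

/-! ### Cutoffs -/

section Cutoff

theorem memLp_real_smul [NormedSpace ℝ E] {χ : ℂ → ℝ} (hχ : MemLp χ ⊤ volume) {f : ℂ → E}
    (hf : MemLp f 2 volume) : MemLp (fun x => χ x • f x) 2 volume := hf.smul hχ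

theorem memLp_mul_top {χ : ℂ → ℂ} (hχ : MemLp χ ⊤ volume) {f : ℂ → ℂ}
    (hf : MemLp f 2 volume) : MemLp (fun x => f x * χ x) 2 volume := by
  have : MemLp (f * χ) 2 volume := hχ.mul hf
  exact this

theorem grad_cutoff {χ : ℂ → ℝ} (hχ : χ ∈ Test Set.univ) {f : ℂ → ℝ} {g : ℂ → ℂ} (h : Grad f g) :
    Grad (fun x => χ x * f x) (fun x => (χ x : ℂ) * g x + (f x : ℂ) * gr χ x) := by
  have hχt := test_memLp hχ ⊤
  have m1 : MemLp (fun x => χ x * f x) 2 volume := memLp_real_smul hχt h.memf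
  have m2 : MemLp (fun x => (χ x : ℂ) * g x) 2 volume := by
    have := memLp_real_smul hχt h.memg
    simpa only [Complex.real_smul] using this
  have m3 : MemLp (fun x => (f x : ℂ) * gr χ x) 2 volume :=
    memLp_mul_top (test_memLp_gr' hχ ⊤) h.memf.ofReal
  refine ⟨m1, m2.add m3, fun φ hφ v => ?_⟩
  have hχφ : (fun x => χ x * φ x) ∈ Test Set.univ := test_mul hφ hχ.1
  have w := h.weak _ hχφ v
  have hd : ∀ x, fderiv ℝ (fun x => χ x * φ x) x v = χ x * fderiv ℝ φ x v + φ x * fderiv ℝ χ x v := by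
    intro x
    rw [fderiv_fun_mul (test_differentiable hχ x) (test_differentiable hφ x)]
    rfl
  have i1 : Integrable (fun x => (χ x * f x) * fderiv ℝ φ x v) :=
    integrable_mul2 m1 (test_fderiv_memLp hφ v 2)
  have hφχ : (fun x => φ x * fderiv ℝ χ x v) ∈ Test Set.univ := test_mul (test_fderiv hχ v) hφ.1
  have i2 : Integrable (fun x => f x * (φ x * fderiv ℝ χ x v)) :=
    integrable_mul2 h.memf (test_memLp hφχ 2)
  have i3 : Integrable (fun x => ip (g x) v * (χ x * φ x)) :=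
    integrable_mul2 (memLp_ip_const h.memg v) (test_memLp hχφ 2)
  have e1 : ∫ x, f x * fderiv ℝ (fun x => χ x * φ x) x v
      = (∫ x, (χ x * f x) * fderiv ℝ φ x v) + ∫ x, f x * (φ x * fderiv ℝ χ x v) := by
    rw [← integral_add i1 i2]
    refine integral_congr_ae (Eventually.of_forall fun x => ?_)
    show f x * fderiv ℝ (fun x => χ x * φ x) x v
      = (χ x * f x) * fderiv ℝ φ x v + f x * (φ x * fderiv ℝ χ x v)
    rw [hd]
    ring
  have e2 : ∫ x, ip ((χ x : ℂ) * g x + (f x : ℂ) * gr χ x) v * φ x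
      = (∫ x, ip (g x) v * (χ x * φ x)) + ∫ x, f x * (φ x * fderiv ℝ χ x v) := by
    rw [← integral_add i3 i2]
    refine integral_congr_ae (Eventually.of_forall fun x => ?_)
    show ip ((χ x : ℂ) * g x + (f x : ℂ) * gr χ x) v * φ x
      = ip (g x) v * (χ x * φ x) + f x * (φ x * fderiv ℝ χ x v)
    rw [ip_add_left, ip_ofReal_mul_left, ip_ofReal_mul_left, ip_gr]
    ring
  rw [e2]
  linarith

/-- the basic cutoff function -/
noncomputable def chi0 : ContDiffBump (0 : ℂ) := ⟨1, 2, zero_lt_one, one_lt_two⟩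

/-- the cutoff function at scale `n + 1` -/
noncomputable def chi (n : ℕ) (x : ℂ) : ℝ := chi0 (((n : ℝ) + 1)⁻¹ • x)

theorem chi0_test : (chi0 : ℂ → ℝ) ∈ Test Set.univ :=
  ⟨chi0.contDiff, chi0.hasCompactSupport, Set.subset_univ _⟩

theorem chi_nonneg (n : ℕ) (x : ℂ) : 0 ≤ chi n x := chi0.nonneg

theorem chi_le_one (n : ℕ) (x : ℂ) : chi n x ≤ 1 := chi0.le_one

theorem chi_eq_one {n : ℕ} {x : ℂ} (h : ‖x‖ ≤ n + 1) : chi n x = 1 := by
  apply chi0.one_of_mem_closedBall
  rw [mem_closedBall_zero_iff, norm_smul, norm_inv, Real.norm_of_nonneg (by positivity)]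
  show _ ≤ (1 : ℝ)
  rw [inv_mul_le_one₀ (by positivity)]
  exact h

theorem chi_eq_zero {n : ℕ} {x : ℂ} (h : 2 * ((n : ℝ) + 1) ≤ ‖x‖) : chi n x = 0 := by
  apply chi0.zero_of_le_dist
  rw [dist_zero_right, norm_smul, norm_inv, Real.norm_of_nonneg (by positivity)]
  show (2 : ℝ) ≤ _
  rw [le_inv_mul_iff₀ (by positivity)]
  linarith

theorem chi_test (n : ℕ) : chi n ∈ Test Set.univ := by
  refine ⟨?_, ?_, Set.subset_univ _⟩
  · exact chi0.contDiff.comp (contDiff_const_smul _)
  · apply HasCompactSupport.of_support_subset_isCompact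
      (isCompact_closedBall (0 : ℂ) (2 * ((n : ℝ) + 1)))
    intro x hx
    rw [mem_closedBall_zero_iff]
    by_contra h
    exact hx (chi_eq_zero (not_le.1 h).le)

theorem gr_chi (n : ℕ) (x : ℂ) : gr (chi n) x = ((((n : ℝ) + 1)⁻¹ : ℝ) : ℂ) *
    gr chi0 (((n : ℝ) + 1)⁻¹ • x) := by
  have h : ∀ v : ℂ, fderiv ℝ (chi n) x v
      = ((n : ℝ) + 1)⁻¹ * fderiv ℝ chi0 (((n : ℝ) + 1)⁻¹ • x) v := by
    intro v
    have h1 : HasFDerivAt (fun x : ℂ => ((n : ℝ) + 1)⁻¹ • x)
        (((n : ℝ) + 1)⁻¹ • ContinuousLinearMap.id ℝ ℂ) x :=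
      (((n : ℝ) + 1)⁻¹ • ContinuousLinearMap.id ℝ ℂ).hasFDerivAt
    have h2 := HasFDerivAt.comp (g := (chi0 : ℂ → ℝ)) x
      (test_differentiable chi0_test (((n : ℝ) + 1)⁻¹ • x)).hasFDerivAt h1
    have h3 : chi n = (chi0 : ℂ → ℝ) ∘ fun x : ℂ => ((n : ℝ) + 1)⁻¹ • x := rfl
    rw [h3, h2.fderiv]
    show fderiv ℝ chi0 (((n : ℝ) + 1)⁻¹ • x) (((n : ℝ) + 1)⁻¹ • v) = _
    rw [map_smul, smul_eq_mul]
  apply Complex.ext
  · rw [gr_re, h, Complex.re_ofReal_mul, gr_re]
  · rw [gr_im, h, Complex.im_ofReal_mul, gr_im]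

theorem gr_chi_bound : ∃ C : ℝ, 0 ≤ C ∧ ∀ n x, ‖gr (chi n) x‖ ≤ C * ((n : ℝ) + 1)⁻¹ := by
  have hc : HasCompactSupport (gr chi0) := by
    have h1 := (test_fderiv chi0_test 1).2.1
    have h2 := (test_fderiv chi0_test I).2.1
    have h3 : HasCompactSupport fun x => ((fderiv ℝ chi0 x 1 : ℝ) : ℂ) :=
      h1.comp_left (g := fun r : ℝ => (r : ℂ)) (by simp)
    have h4 : HasCompactSupport fun x => ((fderiv ℝ chi0 x I : ℝ) : ℂ) * I :=
      h2.comp_left (g := fun r : ℝ => (r : ℂ) * I) (by simp)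
    exact h3.add h4
  have hcont : Continuous (gr chi0) := by
    have h1 := test_continuous (test_fderiv chi0_test 1)
    have h2 := test_continuous (test_fderiv chi0_test I)
    exact (Complex.continuous_ofReal.comp h1).add
      ((Complex.continuous_ofReal.comp h2).mul continuous_const)
  obtain ⟨C, hC⟩ := hcont.bounded_above_of_compact_support hc
  refine ⟨C, (norm_nonneg _).trans (hC 0), fun n x => ?_⟩
  rw [gr_chi, norm_mul, Complex.norm_real, Real.norm_of_nonneg (by positivity), mul_comm]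
  exact mul_le_mul_of_nonneg_right (hC _) (by positivity)

theorem cutoff_tendsto [NormedSpace ℝ E] {f : ℂ → E} (hf : MemLp f 2 volume) :
    Tendsto (fun n : ℕ => eLpNorm ((fun x => chi n x • f x) - f) 2 volume) atTop (𝓝 0) := by
  apply strong_conv (fun n f x => chi n x • f x) 1 _ _ _ _ hf
  · intro n f hf
    exact memLp_real_smul (test_memLp (chi_test n) ⊤) hf
  · refine Eventually.of_forall fun n f hf => ?_
    rw [ENNReal.coe_one, one_mul]
    refine eLpNorm_mono fun x => ?_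
    rw [norm_smul, Real.norm_of_nonneg (chi_nonneg n x)]
    exact mul_le_of_le_one_left (norm_nonneg _) (chi_le_one n x)
  · intro n f g _ _
    refine Eventually.of_forall fun x => ?_
    simp only [Pi.sub_apply, smul_sub]
  · intro f _ hc
    obtain ⟨R, hR⟩ := hc.isCompact.isBounded.subset_closedBall 0
    refine tendsto_const_nhds.congr' ?_
    filter_upwards [eventually_ge_atTop ⌈R⌉₊] with n hn
    have : (fun x => chi n x • f x) - f = 0 := by
      funext x
      simp only [Pi.sub_apply, Pi.zero_apply]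
      by_cases hx : x ∈ tsupport f
      · rw [chi_eq_one, one_smul, sub_self]
        have h1 := mem_closedBall_zero_iff.1 (hR hx)
        have h2 : (⌈R⌉₊ : ℝ) ≤ n := Nat.cast_le.2 hn
        have h3 := Nat.le_ceil R
        linarith
      · rw [image_eq_zero_of_notMem_tsupport hx, smul_zero, sub_zero]
    rw [this, eLpNorm_zero]

theorem cutoff_grad_tendsto {f : ℂ → ℝ} {g : ℂ → ℂ} (hf : MemLp f 2 volume)
    (hg : MemLp g 2 volume) :
    Tendsto (fun n : ℕ => eLpNorm ((fun x => (chi n x : ℂ) * g x + (f x : ℂ) * gr (chi n) x) - g) 2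
      volume) atTop (𝓝 0) := by
  obtain ⟨C, hC0, hC⟩ := gr_chi_bound
  have h1 := cutoff_tendsto hg
  have h2 : Tendsto (fun n : ℕ => ENNReal.ofReal (C * ((n : ℝ) + 1)⁻¹) * eLpNorm f 2 volume) atTop
      (𝓝 0) := by
    have h3 : Tendsto (fun n : ℕ => C * ((n : ℝ) + 1)⁻¹) atTop (𝓝 (C * 0)) := by
      apply Tendsto.const_mul
      simpa [one_div] using tendsto_one_div_add_atTop_nhds_zero_nat (𝕜 := ℝ)
    rw [mul_zero] at h3
    have h4 := ENNReal.tendsto_ofReal h3
    rw [ENNReal.ofReal_zero] at h4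
    have h5 := ENNReal.Tendsto.mul_const h4 (b := eLpNorm f 2 volume) (Or.inr hf.2.ne)
    rwa [zero_mul] at h5
  have h3 := h1.add h2
  rw [add_zero] at h3
  refine tendsto_of_tendsto_of_tendsto_of_le_of_le tendsto_const_nhds h3 (fun n => zero_le) ?_
  intro n
  have hm2 : MemLp (fun x => (f x : ℂ) * gr (chi n) x) 2 volume :=
    memLp_mul_top (test_memLp_gr' (chi_test n) ⊤) hf.ofReal
  have hm1 : MemLp (fun x => chi n x • g x) 2 volume :=
    memLp_real_smul (test_memLp (chi_test n) ⊤) hg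
  have e : (fun x => (chi n x : ℂ) * g x + (f x : ℂ) * gr (chi n) x) - g
      = ((fun x => chi n x • g x) - g) + fun x => (f x : ℂ) * gr (chi n) x := by
    funext x
    simp only [Pi.sub_apply, Pi.add_apply, Complex.real_smul]
    ring
  show eLpNorm ((fun x => (chi n x : ℂ) * g x + (f x : ℂ) * gr (chi n) x) - g) 2 volume ≤ _
  rw [e]
  refine (eLpNorm_add_le (hm1.sub hg).1 hm2.1 (by norm_num)).trans ?_
  refine add_le_add le_rfl ?_
  apply eLpNorm_le_mul_eLpNorm_of_ae_le_mul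
  refine Eventually.of_forall fun x => ?_
  rw [norm_mul, Complex.norm_real, mul_comm]
  exact mul_le_mul_of_nonneg_right (hC n x) (norm_nonneg _)

end Cutoff

end Pool.Agent.H16F.H55
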