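import Pool.Agent.Helper55_Fine.Conv

/-!
Dilations are strongly continuous on `L²` and on `H¹`.
-/

namespace Pool.Agent.H16F.H55

open MeasureTheory Complex Filter Topology Pool.Agent.H16Iso Pool.Agent.H62T
open scoped ENNReal NNReal ContDiff

variable {E : Type*} [NormedAddCommGroup E]

/-- the dilation by the factor `exp s` with centre `p` -/
noncomputable def dmap (p : ℂ) (s : ℝ) (x : ℂ) : ℂ := (Real.exp s : ℂ) * x + (1 - Real.exp s) * p

theorem dmap_continuous (p : ℂ) : Continuous fun z : ℝ × ℂ => dmap p z.1 z.2 := by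
  unfold dmap
  fun_prop

theorem dmap_continuous_right (p : ℂ) (s : ℝ) : Continuous (dmap p s) := by
  unfold dmap
  fun_prop

theorem dmap_continuous_left (p x : ℂ) : Continuous (fun s => dmap p s x) := by
  unfold dmap
  fun_prop

theorem dmap_zero (p x : ℂ) : dmap p 0 x = x := by simp [dmap]

theorem dmap_inv (p : ℂ) (s : ℝ) (x : ℂ) : dmap p (-s) (dmap p s x) = x := by
  simp only [dmap]
  have h : (Real.exp (-s) : ℂ) * (Real.exp s : ℂ) = 1 := by
    rw [← Complex.ofReal_mul, ← Real.exp_add]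
    simp
  linear_combination (x - p) * h

theorem map_dmap (p : ℂ) (s : ℝ) :
    Measure.map (dmap p s) volume = ENNReal.ofReal (Real.exp s ^ 2)⁻¹ • volume :=
  map_dil (Real.exp s) (Real.exp_pos s) ((1 - Real.exp s) * p)

theorem memLp_dmap {f : ℂ → E} (hf : MemLp f 2 volume) (p : ℂ) (s : ℝ) :
    MemLp (fun x => f (dmap p s x)) 2 volume :=
  memLp_comp_affine hf (dmap_continuous_right p s).measurable (map_dmap p s) ENNReal.ofReal_ne_top

theorem eLpNorm_dmap {f : ℂ → E} (hf : MemLp f 2 volume) (p : ℂ) (s : ℝ) :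
    eLpNorm (fun x => f (dmap p s x)) 2 volume
      = ENNReal.ofReal (Real.exp (-s)) * eLpNorm f 2 volume := by
  rw [eLpNorm_comp_affine hf.1 (dmap_continuous_right p s).measurable (map_dmap p s)
    (by
      have : (0 : ℝ) < (Real.exp s ^ 2)⁻¹ := by positivity
      exact (ENNReal.ofReal_pos.2 this).ne')]
  congr 1
  rw [ENNReal.ofReal_rpow_of_pos (by positivity)]
  congr 1
  have : (Real.exp s ^ 2)⁻¹ = Real.exp (-s) ^ (2 : ℝ) := by
    rw [Real.exp_neg, Real.inv_rpow (Real.exp_pos s).le]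
    norm_cast
  rw [this, ← Real.rpow_mul (Real.exp_pos _).le]
  norm_num

theorem dmap_tendsto [NormedSpace ℝ E] {f : ℂ → E} (hf : MemLp f 2 volume) (p : ℂ) :
    Tendsto (fun s : ℝ => eLpNorm ((fun x => f (dmap p s x)) - f) 2 volume) (𝓝 0) (𝓝 0) := by
  apply strong_conv (fun s f x => f (dmap p s x)) 3 _ _ _ _ hf
  · intro s f hf
    exact memLp_dmap hf p s
  · have : ∀ᶠ s : ℝ in 𝓝 0, -1 < s := eventually_gt_nhds (by norm_num)
    filter_upwards [this] with s hs f hf
    rw [eLpNorm_dmap hf]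
    gcongr
    rw [← ENNReal.ofReal_coe_nnreal]
    apply ENNReal.ofReal_le_ofReal
    have h1 : Real.exp (-s) ≤ Real.exp 1 := Real.exp_le_exp.2 (by linarith)
    have h2 := Real.exp_one_lt_d9
    have h3 : ((3 : ℝ≥0) : ℝ) = 3 := rfl
    rw [h3]
    linarith
  · intro s f g _ _
    exact Eventually.of_forall fun x => rfl
  · intro f hcont hc
    obtain ⟨M, hM⟩ := hcont.bounded_above_of_compact_support hc
    set K : Set ℂ := (fun z : ℝ × ℂ => dmap p z.1 z.2) '' (Set.Icc (-1) 1 ×ˢ tsupport f) with hK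
    have hKc : IsCompact K := (isCompact_Icc.prod hc.isCompact).image (dmap_continuous p)
    have hsmall : ∀ᶠ s : ℝ in 𝓝 0, s ∈ Set.Icc (-1 : ℝ) 1 :=
      Icc_mem_nhds (by norm_num) (by norm_num)
    apply conv_dom hKc (M := M + M)
    · refine Eventually.of_forall fun s => ?_
      have h1 : Continuous fun x => f (dmap p s x) := hcont.comp (dmap_continuous_right p s)
      exact (h1.sub hcont).aestronglyMeasurable
    · refine Eventually.of_forall fun s x => ?_
      exact (norm_sub_le _ _).trans (add_le_add (hM _) (hM _))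
    · filter_upwards [hsmall] with s hs x hx
      have h1 : f x = 0 := by
        by_contra h
        exact hx ⟨(0, x), ⟨⟨by norm_num, by norm_num⟩, subset_tsupport f h⟩, dmap_zero p x⟩
      have h2 : f (dmap p s x) = 0 := by
        by_contra h
        exact hx ⟨(-s, dmap p s x), ⟨⟨by linarith [hs.2], by linarith [hs.1]⟩, subset_tsupport f h⟩,
          dmap_inv p s x⟩
      simp only [Pi.sub_apply, h1, h2, sub_zero]
    · intro x
      have h1 : Tendsto (fun s : ℝ => f (dmap p s x)) (𝓝 0) (𝓝 (f (dmap p 0 x))) :=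
        (hcont.comp (dmap_continuous_left p x)).tendsto 0
      rw [dmap_zero] at h1
      have h2 := h1.sub_const (f x)
      rwa [sub_self] at h2

theorem grad_dmap {f : ℂ → ℝ} {g : ℂ → ℂ} (h : Grad f g) (p : ℂ) (s : ℝ) :
    Grad (fun x => f (dmap p s x)) (fun x => (Real.exp s : ℂ) * g (dmap p s x)) :=
  grad_dil h (Real.exp_pos s) _

theorem dmap_grad_tendsto {g : ℂ → ℂ} (hg : MemLp g 2 volume) (p : ℂ) :
    Tendsto (fun s : ℝ => eLpNorm ((fun x => (Real.exp s : ℂ) * g (dmap p s x)) - g) 2 volume)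
      (𝓝 0) (𝓝 0) := by
  have h1 := dmap_tendsto hg p
  have h2 : Tendsto (fun s : ℝ => ENNReal.ofReal |Real.exp s - 1|
      * (ENNReal.ofReal (Real.exp (-s)) * eLpNorm g 2 volume)) (𝓝 0) (𝓝 0) := by
    have h3 : Tendsto (fun s : ℝ => |Real.exp s - 1| * Real.exp (-s)) (𝓝 0) (𝓝 0) := by
      have : Continuous fun s : ℝ => |Real.exp s - 1| * Real.exp (-s) := by fun_prop
      have h := this.tendsto 0
      simpa using h
    have h4 := ENNReal.tendsto_ofReal h3
    rw [ENNReal.ofReal_zero] at h4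
    have h5 := ENNReal.Tendsto.mul_const h4 (b := eLpNorm g 2 volume) (Or.inr hg.2.ne)
    rw [zero_mul] at h5
    refine h5.congr fun s => ?_
    rw [ENNReal.ofReal_mul (abs_nonneg _), mul_assoc]
  have h3 := h1.add h2
  rw [add_zero] at h3
  refine tendsto_of_tendsto_of_tendsto_of_le_of_le tendsto_const_nhds h3 (fun n => zero_le) ?_
  intro s
  have e : (fun x => (Real.exp s : ℂ) * g (dmap p s x)) - g
      = ((fun x => g (dmap p s x)) - g) + fun x => ((Real.exp s - 1 : ℝ) : ℂ) * g (dmap p s x) := by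
    funext x
    simp only [Pi.sub_apply, Pi.add_apply, Complex.ofReal_sub, Complex.ofReal_one]
    ring
  show eLpNorm ((fun x => (Real.exp s : ℂ) * g (dmap p s x)) - g) 2 volume ≤ _
  rw [e]
  have m1 := memLp_dmap hg p s
  refine (eLpNorm_add_le (m1.sub hg).1 (m1.const_mul _).1 (by norm_num)).trans ?_
  refine add_le_add le_rfl (le_of_eq ?_)
  have := eLpNorm_const_smul ((Real.exp s - 1 : ℝ) : ℂ) (fun x => g (dmap p s x)) 2
    (volume : Measure ℂ)
  rw [← ofReal_norm, Complex.norm_real, Real.norm_eq_abs] at this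
  refine Eq.trans this ?_
  rw [eLpNorm_dmap hg]

end Pool.Agent.H16F.H55
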