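import Pool.Agent.Helper55_Fine.Dil

/-!
Mollification of square integrable functions and of Sobolev functions.
-/

namespace Pool.Agent.H16F.H55

open MeasureTheory Complex Filter Topology Pool.Agent.H16Iso Pool.Agent.H62T
open scoped ENNReal NNReal ContDiff

variable {E : Type*} [NormedAddCommGroup E] [NormedSpace ℝ E]

/-- the density of the mollifier -/
noncomputable abbrev ph (n : ℕ) : ℂ → ℝ := (phi n).normed volume

/-- mollification of functions with values in a normed space -/
noncomputable def ml (n : ℕ) (f : ℂ → E) (x : ℂ) : E := ∫ t, ph n t • f (x - t)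

theorem ph_cont (n : ℕ) : Continuous (ph n) := (phi n).continuous_normed

theorem ph_nonneg (n : ℕ) (t : ℂ) : 0 ≤ ph n t := (phi n).nonneg_normed t

theorem ph_memLp (n : ℕ) (p : ℝ≥0∞) : MemLp (ph n) p volume :=
  (ph_cont n).memLp_of_hasCompactSupport (phi n).hasCompactSupport_normed

theorem lintegral_ph (n : ℕ) : ∫⁻ t, ‖ph n t‖ₑ = 1 := by
  have h := ofReal_integral_norm_eq_lintegral_enorm (phi n).integrable_normed (μ := volume)
  rw [← h]
  have : ∫ t, ‖ph n t‖ = 1 := by
    rw [← (phi n).integral_normed (μ := (volume : Measure ℂ))]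
    refine integral_congr_ae (Eventually.of_forall fun t => ?_)
    exact Real.norm_of_nonneg (ph_nonneg n t)
  rw [show (∫ t, ‖(phi n).normed volume t‖) = 1 from this, ENNReal.ofReal_one]

theorem ml_eq_mol (n : ℕ) (f : ℂ → ℝ) : ml n f = mol n f := by
  funext x
  rw [mol_apply]
  rfl

theorem ml_congr {f f' : ℂ → E} (h : f =ᵐ[volume] f') (n : ℕ) (x : ℂ) : ml n f x = ml n f' x := by
  refine integral_congr_ae ?_
  have := (quasiMeasurePreserving_sub_left (volume : Measure ℂ) x).ae h
  filter_upwards [this] with t ht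
  rw [ht]

omit [NormedSpace ℝ E] in
theorem eLpNorm_sub_right (f : ℂ → E) (hf : AEStronglyMeasurable f volume) (t : ℂ) :
    eLpNorm (fun x => f (x - t)) 2 volume = eLpNorm f 2 volume :=
  eLpNorm_comp_measurePreserving hf (measurePreserving_sub_right volume t)

omit [NormedSpace ℝ E] in
theorem memLp_sub_right {f : ℂ → E} (hf : MemLp f 2 volume) (t : ℂ) :
    MemLp (fun x => f (x - t)) 2 volume :=
  hf.comp_measurePreserving (measurePreserving_sub_right volume t)

omit [NormedSpace ℝ E] in
theorem memLp_sub_left {f : ℂ → E} (hf : MemLp f 2 volume) (x : ℂ) :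
    MemLp (fun t => f (x - t)) 2 volume :=
  hf.comp_measurePreserving (Measure.measurePreserving_sub_left volume x)

theorem ml_integrable {f : ℂ → E} (hf : MemLp f 2 volume) (n : ℕ) (x : ℂ) :
    Integrable (fun t => ph n t • f (x - t)) := by
  rw [← memLp_one_iff_integrable]
  exact (memLp_sub_left hf x).smul (ph_memLp n 2)

theorem sm_ml {f : ℂ → E} (hf : StronglyMeasurable f) (n : ℕ) :
    StronglyMeasurable (Function.uncurry fun t x => ph n t • f (x - t)) := by
  have h1 : StronglyMeasurable fun p : ℂ × ℂ => ph n p.1 :=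
    ((ph_cont n).comp continuous_fst).stronglyMeasurable
  have h2 : StronglyMeasurable fun p : ℂ × ℂ => f (p.2 - p.1) :=
    hf.comp_measurable (measurable_snd.sub measurable_fst)
  exact h1.smul h2

theorem lint_ml {f : ℂ → E} (hf : AEStronglyMeasurable f volume) (n : ℕ) :
    ∫⁻ t, eLpNorm (fun x => ph n t • f (x - t)) 2 volume = eLpNorm f 2 volume := by
  have : ∀ t, eLpNorm (fun x => ph n t • f (x - t)) 2 volume = ‖ph n t‖ₑ * eLpNorm f 2 volume := by
    intro t
    rw [← eLpNorm_sub_right f hf t]
    exact eLpNorm_const_smul _ _ _ _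
  simp only [this]
  rw [lintegral_mul_const _ (ph_cont n).measurable.enorm, lintegral_ph, one_mul]

theorem ml_memLp {f : ℂ → E} (hf : MemLp f 2 volume) (n : ℕ) :
    MemLp (ml n f) 2 volume ∧ eLpNorm (ml n f) 2 volume ≤ eLpNorm f 2 volume := by
  obtain ⟨f', hf', he⟩ := hf.1
  have hf2 : MemLp f' 2 volume := hf.ae_eq he
  have e : ml n f = ml n f' := funext fun x => ml_congr he n x
  have h1 := lint_ml hf2.1 n
  have h2 := memLp_superposition (μ := (volume : Measure ℂ)) (ν := (volume : Measure ℂ))
    (sm_ml hf' n) (by rw [h1]; exact hf2.2)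
  rw [h1] at h2
  rw [e, eLpNorm_congr_ae he]
  exact h2

theorem ml_sub {f g : ℂ → E} (hf : MemLp f 2 volume) (hg : MemLp g 2 volume) (n : ℕ) :
    ml n (f - g) = ml n f - ml n g := by
  funext x
  show ∫ t, ph n t • (f - g) (x - t) = (∫ t, ph n t • f (x - t)) - ∫ t, ph n t • g (x - t)
  rw [← integral_sub (ml_integrable hf n x) (ml_integrable hg n x)]
  refine integral_congr_ae (Eventually.of_forall fun t => ?_)
  simp only [Pi.sub_apply, smul_sub]

theorem ml_zero_of_dist {f : ℂ → E} (n : ℕ) {x : ℂ}
    (hx : ∀ᵐ y, dist y x < 1 / ((n : ℝ) + 1) → f y = 0) : ml n f x = 0 := by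
  apply integral_eq_zero_of_ae
  have h := (quasiMeasurePreserving_sub_left (volume : Measure ℂ) x).ae hx
  filter_upwards [h] with t ht
  by_cases hs : t ∈ Function.support (ph n)
  · rw [ContDiffBump.support_normed_eq, Metric.mem_ball, dist_zero_right] at hs
    rw [ht, smul_zero]
    · rfl
    · rw [dist_eq_norm]
      have e : x - t - x = -t := by ring
      rw [e, norm_neg]
      exact hs
  · rw [Function.notMem_support] at hs
    rw [hs, zero_smul]
    rfl

theorem ml_bound {f : ℂ → E} {C : ℝ} (hC : ∀ x, ‖f x‖ ≤ C) (n : ℕ) (x : ℂ) : ‖ml n f x‖ ≤ C := by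
  have h1 : ∀ t, ‖ph n t • f (x - t)‖ ≤ C * ph n t := by
    intro t
    rw [norm_smul, Real.norm_of_nonneg (ph_nonneg n t), mul_comm]
    exact mul_le_mul_of_nonneg_right (hC _) (ph_nonneg n t)
  calc ‖ml n f x‖ ≤ ∫ t, C * ph n t :=
        norm_integral_le_of_norm_le ((phi n).integrable_normed.const_mul _)
          (Eventually.of_forall h1)
    _ = C := by
        rw [integral_const_mul, (phi n).integral_normed, mul_one]

theorem ml_pointwise [CompleteSpace E] {f : ℂ → E} (hf : Continuous f) (x : ℂ) :
    Tendsto (fun n => ml n f x) atTop (𝓝 (f x)) := by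
  have h := ContDiffBump.convolution_tendsto_right_of_continuous (μ := (volume : Measure ℂ))
    phi_rOut_tendsto hf x
  refine h.congr fun n => ?_
  simp only [convolution_def, ContinuousLinearMap.lsmul_apply]
  rfl

theorem ml_tendsto [CompleteSpace E] {f : ℂ → E} (hf : MemLp f 2 volume) :
    Tendsto (fun n => eLpNorm (ml n f - f) 2 volume) atTop (𝓝 0) := by
  apply strong_conv (fun n f => ml n f) 1 _ _ _ _ hf
  · exact fun n f hf => (ml_memLp hf n).1
  · refine Eventually.of_forall fun n f hf => ?_
    rw [ENNReal.coe_one, one_mul]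
    exact (ml_memLp hf n).2
  · intro n f g hf hg
    rw [ml_sub hf hg]
  · intro f hcont hc
    obtain ⟨M, hM⟩ := hcont.bounded_above_of_compact_support hc
    have hmem : MemLp f 2 volume := hcont.memLp_of_hasCompactSupport hc
    apply conv_dom (K := Metric.cthickening 1 (tsupport f)) hc.isCompact.cthickening (M := M + M)
    · exact Eventually.of_forall fun n => ((ml_memLp hmem n).1.sub hmem).1
    · refine Eventually.of_forall fun n x => ?_
      exact (norm_sub_le _ _).trans (add_le_add (ml_bound hM n x) (hM x))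
    · refine Eventually.of_forall fun n x hx => ?_
      have h1 : f x = 0 := by
        by_contra h
        exact hx (Metric.self_subset_cthickening _ (subset_tsupport f h))
      have h2 : ml n f x = 0 := by
        apply ml_zero_of_dist
        refine Eventually.of_forall fun y hy => ?_
        by_contra h
        apply hx
        apply Metric.thickening_subset_cthickening
        rw [Metric.mem_thickening_iff]
        refine ⟨y, subset_tsupport f h, ?_⟩
        rw [dist_comm]
        refine hy.trans_le ?_
        rw [div_le_one (by positivity)]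
        have : (0 : ℝ) ≤ n := n.cast_nonneg
        linarith
      simp only [Pi.sub_apply, h1, h2, sub_zero]
    · intro x
      have h := (ml_pointwise hcont x).sub_const (f x)
      rwa [sub_self] at h

theorem ml_contDiff {f : ℂ → ℝ} (hf : MemLp f 2 volume) (n : ℕ) : ContDiff ℝ ∞ (ml n f) := by
  rw [ml_eq_mol]
  exact (phi n).hasCompactSupport_normed.contDiff_convolution_left _ (phi n).contDiff_normed
    (memLp_two_locallyIntegrable hf)

theorem grad_ml {f : ℂ → ℝ} {g : ℂ → ℂ} (h : Grad f g) (n : ℕ) : Grad (ml n f) (ml n g) := by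
  obtain ⟨f', hf', hef⟩ := h.memf.1
  obtain ⟨g', hg', heg⟩ := h.memg.1
  have h' : Grad f' g' := grad_congr h hef heg
  have e1 : ml n f = ml n f' := funext fun x => ml_congr hef n x
  have e2 : ml n g = ml n g' := funext fun x => ml_congr heg n x
  rw [e1, e2]
  refine grad_super (μ := (volume : Measure ℂ)) (F := fun t x => ph n t • f' (x - t))
    (G := fun t x => ph n t • g' (x - t)) (sm_ml hf' n).measurable (sm_ml hg' n).measurable ?_ ?_ ?_
  · refine Eventually.of_forall fun t => ?_
    have h1 := grad_dil h' one_pos (-t)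
    have h2 := grad_lin (ph n t) 0 h1 h1
    refine grad_congr h2 (Eventually.of_forall fun x => ?_) (Eventually.of_forall fun x => ?_)
    · simp [sub_eq_add_neg]
    · simp [sub_eq_add_neg]
  · rw [lint_ml h'.memf.1]; exact h'.memf.2
  · rw [lint_ml h'.memg.1]; exact h'.memg.2

theorem ml_support {f : ℂ → ℝ} {K : Set ℂ} (hf : ∀ᵐ x, x ∉ K → f x = 0) (n : ℕ) :
    tsupport (ml n f) ⊆ Metric.cthickening (1 / ((n : ℝ) + 1)) K := by
  apply closure_minimal _ Metric.isClosed_cthickening
  intro x hx
  by_contra hn
  apply hx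
  apply ml_zero_of_dist
  filter_upwards [hf] with y hy hd
  apply hy
  intro hyK
  apply hn
  apply Metric.thickening_subset_cthickening
  rw [Metric.mem_thickening_iff]
  exact ⟨y, hyK, by rwa [dist_comm]⟩

theorem ml_test {f : ℂ → ℝ} (hf2 : MemLp f 2 volume) {K D : Set ℂ} (hK : IsCompact K)
    (hf : ∀ᵐ x, x ∉ K → f x = 0) {n : ℕ}
    (hn : Metric.cthickening (1 / ((n : ℝ) + 1)) K ⊆ D) : ml n f ∈ Test D :=
  ⟨ml_contDiff hf2 n, hK.cthickening.of_isClosed_subset (isClosed_tsupport _) (ml_support hf n),
    (ml_support hf n).trans hn⟩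

end Pool.Agent.H16F.H55
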