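import Pool.Agent.Helper16_Fine.Stmt2
import Pool.Agent.Helper55_Fine.L2

/-!
Elementary facts on test functions and on integrals against weak gradients.
-/

namespace Pool.Agent.H16F.H55

open MeasureTheory Complex Filter Topology Pool.Agent.H16Iso Pool.Agent.H62T
open scoped ENNReal NNReal ContDiff

/-- the gradient of a smooth function, as a complex number -/
noncomputable def gr (φ : ℂ → ℝ) (x : ℂ) : ℂ :=
  ((fderiv ℝ φ x 1 : ℝ) : ℂ) + ((fderiv ℝ φ x I : ℝ) : ℂ) * I

theorem gr_re (φ : ℂ → ℝ) (x : ℂ) : (gr φ x).re = fderiv ℝ φ x 1 := by simp [gr]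

theorem gr_im (φ : ℂ → ℝ) (x : ℂ) : (gr φ x).im = fderiv ℝ φ x I := by simp [gr]

theorem cpx_eq (v : ℂ) : v = v.re • (1 : ℂ) + v.im • I := by
  apply Complex.ext <;> simp

theorem clm_eq (L : ℂ →L[ℝ] ℝ) (v : ℂ) : L v = v.re * L 1 + v.im * L I := by
  conv_lhs => rw [cpx_eq v]
  rw [map_add, map_smul, map_smul, smul_eq_mul, smul_eq_mul]

theorem ip_gr (φ : ℂ → ℝ) (x v : ℂ) : ip (gr φ x) v = fderiv ℝ φ x v := by
  rw [clm_eq, ip, gr_re, gr_im]
  ring

theorem ip_comm (z w : ℂ) : ip z w = ip w z := by simp only [ip]; ring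

theorem ip_eq_inner (z w : ℂ) : ip z w = inner ℝ z w := by
  simp only [ip, Complex.inner, Complex.mul_re, Complex.conj_re, Complex.conj_im]
  ring

theorem ip_one (z : ℂ) : ip z 1 = z.re := by simp [ip]

theorem ip_I (z : ℂ) : ip z I = z.im := by simp [ip]

theorem ip_add_left (z w v : ℂ) : ip (z + w) v = ip z v + ip w v := by
  simp only [ip, Complex.add_re, Complex.add_im]; ring

theorem ip_sub_left (z w v : ℂ) : ip (z - w) v = ip z v - ip w v := by
  simp only [ip, Complex.sub_re, Complex.sub_im]; ring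

theorem ip_ofReal_mul_left (a : ℝ) (z v : ℂ) : ip ((a : ℂ) * z) v = a * ip z v := by
  simp only [ip, Complex.re_ofReal_mul, Complex.im_ofReal_mul]; ring

theorem ip_self (z : ℂ) : ip z z = ‖z‖ ^ 2 := by
  rw [← Complex.normSq_eq_norm_sq, Complex.normSq_apply, ip]

theorem abs_ip_le (z w : ℂ) : |ip z w| ≤ ‖z‖ * ‖w‖ := by
  rw [ip_eq_inner]
  exact abs_real_inner_le_norm z w

section Test

variable {Ω : Set ℂ} {φ : ℂ → ℝ}

theorem test_univ (hφ : φ ∈ Test Ω) : φ ∈ Test Set.univ := ⟨hφ.1, hφ.2.1, Set.subset_univ _⟩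

theorem test_continuous (hφ : φ ∈ Test Ω) : Continuous φ := hφ.1.continuous

theorem test_differentiable (hφ : φ ∈ Test Ω) : Differentiable ℝ φ :=
  hφ.1.differentiable (by simp)

theorem test_fderiv (hφ : φ ∈ Test Ω) (v : ℂ) : (fun x => fderiv ℝ φ x v) ∈ Test Ω := by
  obtain ⟨h1, h2, h3⟩ := hφ
  refine ⟨?_, h2.fderiv_apply ℝ v, ?_⟩
  · exact (h1.fderiv_right (m := ∞) (by simp)).clm_apply contDiff_const
  · refine subset_trans ?_ h3
    exact (closure_mono (fun x hx => by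
      intro h0
      apply hx
      show fderiv ℝ φ x v = 0
      rw [h0]
      simp)).trans (tsupport_fderiv_subset ℝ)

theorem test_memLp (hφ : φ ∈ Test Ω) (p : ℝ≥0∞) : MemLp φ p volume :=
  (test_continuous hφ).memLp_of_hasCompactSupport hφ.2.1

theorem test_fderiv_memLp (hφ : φ ∈ Test Ω) (v : ℂ) (p : ℝ≥0∞) :
    MemLp (fun x => fderiv ℝ φ x v) p volume := test_memLp (test_fderiv hφ v) p

theorem test_integrable (hφ : φ ∈ Test Ω) : Integrable φ := by
  rw [← memLp_one_iff_integrable]; exact test_memLp hφ 1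

theorem test_mul {ψ : ℂ → ℝ} (hφ : φ ∈ Test Ω) (hψ : ContDiff ℝ ∞ ψ) :
    (fun x => ψ x * φ x) ∈ Test Ω := by
  refine ⟨hψ.mul hφ.1, hφ.2.1.mul_left, ?_⟩
  refine subset_trans (closure_mono fun x hx => ?_) hφ.2.2
  intro h0
  apply hx
  show ψ x * φ x = 0
  rw [h0, mul_zero]

theorem test_memLp_gr' (hφ : φ ∈ Test Ω) (p : ℝ≥0∞) : MemLp (gr φ) p volume := by
  have h1 : MemLp (fun x => ((fderiv ℝ φ x 1 : ℝ) : ℂ)) p volume := (test_fderiv_memLp hφ 1 p).ofReal
  have h2 : MemLp (fun x => ((fderiv ℝ φ x I : ℝ) : ℂ) * I) p volume :=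
    (test_fderiv_memLp hφ I p).ofReal.mul_const I
  exact h1.add h2

theorem test_memLp_gr (hφ : φ ∈ Test Ω) : MemLp (gr φ) 2 volume := test_memLp_gr' hφ 2

end Test

section Products

theorem memLp_re {g : ℂ → ℂ} (hg : MemLp g 2 volume) : MemLp (fun x => (g x).re) 2 volume := hg.re

theorem memLp_im {g : ℂ → ℂ} (hg : MemLp g 2 volume) : MemLp (fun x => (g x).im) 2 volume := hg.im

theorem memLp_ip_const {g : ℂ → ℂ} (hg : MemLp g 2 volume) (v : ℂ) :
    MemLp (fun x => ip (g x) v) 2 volume := by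
  have := ((memLp_re hg).mul_const v.re).add ((memLp_im hg).mul_const v.im)
  exact this

theorem integrable_mul2 {f h : ℂ → ℝ} (hf : MemLp f 2 volume) (hh : MemLp h 2 volume) :
    Integrable (fun x => f x * h x) := MemLp.integrable_mul hf hh

theorem integrable_ip {g h : ℂ → ℂ} (hg : MemLp g 2 volume) (hh : MemLp h 2 volume) :
    Integrable (fun x => ip (g x) (h x)) := by
  have := (integrable_mul2 (memLp_re hg) (memLp_re hh)).add
    (integrable_mul2 (memLp_im hg) (memLp_im hh))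
  exact this

end Products

/-- the weak equation with a vector `v` follows from the cases `v = 1` and `v = I` -/
theorem grad_of {f : ℂ → ℝ} {g : ℂ → ℂ} (hf : MemLp f 2 volume) (hg : MemLp g 2 volume)
    (h1 : ∀ φ ∈ Test Set.univ, ∫ x, f x * fderiv ℝ φ x 1 = -∫ x, (g x).re * φ x)
    (h2 : ∀ φ ∈ Test Set.univ, ∫ x, f x * fderiv ℝ φ x I = -∫ x, (g x).im * φ x) : Grad f g := by
  refine ⟨hf, hg, fun φ hφ v => ?_⟩
  have i1 := integrable_mul2 hf (test_fderiv_memLp hφ 1 2)
  have i2 := integrable_mul2 hf (test_fderiv_memLp hφ I 2)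
  have i3 := integrable_mul2 (memLp_re hg) (test_memLp hφ 2)
  have i4 := integrable_mul2 (memLp_im hg) (test_memLp hφ 2)
  have e1 : ∫ x, f x * fderiv ℝ φ x v
      = v.re * (∫ x, f x * fderiv ℝ φ x 1) + v.im * ∫ x, f x * fderiv ℝ φ x I := by
    rw [← integral_const_mul, ← integral_const_mul, ← integral_add (i1.const_mul _) (i2.const_mul _)]
    refine integral_congr_ae (Eventually.of_forall fun x => ?_)
    show f x * fderiv ℝ φ x v = v.re * (f x * fderiv ℝ φ x 1) + v.im * (f x * fderiv ℝ φ x I)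
    rw [clm_eq (fderiv ℝ φ x) v]
    ring
  have e2 : ∫ x, ip (g x) v * φ x = v.re * (∫ x, (g x).re * φ x) + v.im * ∫ x, (g x).im * φ x := by
    rw [← integral_const_mul, ← integral_const_mul, ← integral_add (i3.const_mul _) (i4.const_mul _)]
    refine integral_congr_ae (Eventually.of_forall fun x => ?_)
    show ip (g x) v * φ x = v.re * ((g x).re * φ x) + v.im * ((g x).im * φ x)
    rw [ip]
    ring
  rw [e1, e2, h1 φ hφ, h2 φ hφ]
  ring

end Pool.Agent.H16F.H55
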