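import Pool.Agent.Helper8_Fine.Area
import Pool.Agent.Helper55_Fine.Res
import Pool.Agent.Helper8_TRI.EIG

/-!
TRN, first part: the quadratic form of the heat semigroup, summed over an orthonormal basis.
-/

namespace Pool.Agent.H16F.H55

open MeasureTheory Complex Filter Topology ProbabilityTheory Pool.Agent.H16Iso Pool.Agent.H62T
open scoped ENNReal NNReal

/-! ### Orthonormal bases -/

/-- an orthonormal basis of `L²(B)` -/
structure Onb (B : Set ℂ) (φ : ℕ → ℂ → ℝ) : Prop where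
  meas : ∀ k, Measurable (φ k)
  memLp : ∀ k, MemLp (φ k) 2 volume
  supp : ∀ k, ∀ x ∉ B, φ k x = 0
  norm : ∀ k, ∫ x, φ k x ^ 2 = 1
  complete : ∀ f : ℂ → ℝ, MemLp f 2 volume → (∀ x ∉ B, f x = 0) →
    HasSum (fun k => (∫ x, f x * φ k x) ^ 2) (∫ x, f x ^ 2)

theorem exists_onb (R : ℝ) (hR : 0 < R) : ∃ φ, Onb (Metric.ball 0 R) φ := by
  obtain ⟨μ, φ, h⟩ := H8.eig ker (Metric.ball 0 R) Metric.isOpen_ball Metric.isBounded_ball
    ⟨0, Metric.mem_ball_self hR⟩ 1 one_pos
  refine ⟨φ, h.meas, h.memLp, h.supp, fun k => ?_, h.complete⟩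
  have := h.ortho k k
  simp only [if_true] at this
  rw [← this]
  simp only [sq]

theorem Onb.pars {B : Set ℂ} {φ : ℕ → ℂ → ℝ} (h : Onb B φ) (hB : MeasurableSet B)
    {f g : ℂ → ℝ} (hf : MemLp f 2 volume) (hg : MemLp g 2 volume) :
    HasSum (fun k => (∫ x, f x * φ k x) * (∫ x, g x * φ k x)) (∫ x in B, f x * g x) := by
  have hf' : MemLp (B.indicator f) 2 volume := hf.indicator hB
  have hg' : MemLp (B.indicator g) 2 volume := hg.indicator hB
  have e : ∀ (u : ℂ → ℝ) k, ∫ x, B.indicator u x * φ k x = ∫ x, u x * φ k x := by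
    intro u k
    congr 1
    funext x
    by_cases hx : x ∈ B
    · rw [Set.indicator_of_mem hx]
    · rw [h.supp k x hx, mul_zero, mul_zero]
  have h1 := h.complete _ hf' (fun x hx => Set.indicator_of_notMem hx _)
  have h2 := h.complete _ hg' (fun x hx => Set.indicator_of_notMem hx _)
  have h3 := h.complete (fun x => B.indicator f x + B.indicator g x) (hf'.add hg')
    (fun x hx => by rw [Set.indicator_of_notMem hx, Set.indicator_of_notMem hx, add_zero])
  have i1 : ∀ {u : ℂ → ℝ}, MemLp u 2 volume → ∀ k, Integrable fun x => u x * φ k x :=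
    fun hu k => integrable_mul2 hu (h.memLp k)
  have hsum := ((h3.sub h1).sub h2).div_const 2
  have ev : ((∫ x, (B.indicator f x + B.indicator g x) ^ 2) - (∫ x, B.indicator f x ^ 2)
      - ∫ x, B.indicator g x ^ 2) / 2 = ∫ x in B, f x * g x := by
    have j1 : Integrable fun x => B.indicator f x ^ 2 := by
      simpa only [sq] using integrable_mul2 hf' hf'
    have j2 : Integrable fun x => B.indicator g x ^ 2 := by
      simpa only [sq] using integrable_mul2 hg' hg'
    have j3 : Integrable fun x => (B.indicator f x + B.indicator g x) ^ 2 := by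
      simpa only [sq, Pi.add_apply] using integrable_mul2 (hf'.add hg') (hf'.add hg')
    have j4 : Integrable fun x => (B.indicator f x + B.indicator g x) ^ 2
      - B.indicator f x ^ 2 := j3.sub j1
    rw [← integral_sub j3 j1, ← integral_sub j4 j2, ← integral_div,
      ← integral_indicator hB]
    congr 1
    funext x
    by_cases hx : x ∈ B
    · simp only [Set.indicator_of_mem hx]
      ring
    · simp only [Set.indicator_of_notMem hx]
      ring
  rw [ev] at hsum
  have hfun : (fun k => (∫ x, f x * φ k x) * (∫ x, g x * φ k x)) = fun k =>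
      ((∫ x, (B.indicator f x + B.indicator g x) * φ k x) ^ 2
        - (∫ x, B.indicator f x * φ k x) ^ 2 - (∫ x, B.indicator g x * φ k x) ^ 2) / 2 := ?_
  · rw [hfun]
    exact hsum
  funext k
  rw [← e f k, ← e g k]
  have : ∫ x, (B.indicator f x + B.indicator g x) * φ k x
      = (∫ x, B.indicator f x * φ k x) + ∫ x, B.indicator g x * φ k x := by
    rw [← integral_add (i1 hf' k) (i1 hg' k)]
    congr 1
    funext x
    ring
  rw [this]
  ring

theorem Onb.bessel {B : Set ℂ} {φ : ℕ → ℂ → ℝ} (h : Onb B φ) (hB : MeasurableSet B)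
    {f : ℂ → ℝ} (hf : MemLp f 2 volume) (N : ℕ) :
    ∑ k ∈ Finset.range N, (∫ x, f x * φ k x) ^ 2 ≤ ∫ x in B, f x ^ 2 := by
  have h1 := h.pars hB hf hf
  simp only [← sq] at h1
  exact sum_le_hasSum _ (fun k _ => sq_nonneg _) h1

/-! ### The Gaussian kernel -/

theorem G_int {t : ℝ} (ht : 0 < t) : Integrable (G t) ∧ ∫ z, G t z = 1 := by
  have e : G t = fun z => Real.exp (-(1 / (4 * t)) * ‖z - 0‖ ^ 2) / (4 * Real.pi * t) := by
    funext z
    unfold G
    rw [sub_zero]
    congr 2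
    ring
  constructor
  · rw [e]
    exact (H41.integrable_gauss _ (by positivity) 0).div_const _
  · rw [e, integral_div, H41.integral_gauss _ (by positivity) 0]
    field_simp

theorem G_sq {t : ℝ} (ht : 0 < t) (x : ℂ) : Integrable (fun y => G t (x - y) ^ 2) := by
  have h := H41.G_integrable t ht x x
  refine h.congr (Eventually.of_forall fun z => ?_)
  simp only [sq]
  rw [H41.G_sub_comm t z x]

theorem schur1 {t : ℝ} (ht : 0 < t) {f : ℂ → ℝ} (hf : MemLp f 2 volume) :
    Integrable (fun p : ℂ × ℂ => f p.1 ^ 2 * G t (p.1 - p.2)) ∧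
    ∫ p : ℂ × ℂ, f p.1 ^ 2 * G t (p.1 - p.2) = ∫ x, f x ^ 2 := by
  have hf2 : Integrable fun x => f x ^ 2 := by
    simpa only [sq] using integrable_mul2 hf hf
  have hm : AEStronglyMeasurable (fun p : ℂ × ℂ => f p.1 ^ 2 * G t (p.1 - p.2))
      (volume.prod volume) := by
    refine (hf2.1.comp_fst).mul ?_
    exact ((H41.G_cont t).comp (continuous_fst.sub continuous_snd)).aestronglyMeasurable
  have hsec : ∀ x : ℂ, Integrable fun y => f x ^ 2 * G t (x - y) := by
    intro x
    exact ((G_int ht).1.comp_sub_left x).const_mul _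
  have hint : ∀ x : ℂ, ∫ y, f x ^ 2 * G t (x - y) = f x ^ 2 := by
    intro x
    rw [integral_const_mul, integral_sub_left_eq_self (fun y => G t y) volume x, (G_int ht).2,
      mul_one]
  have hI : Integrable (fun p : ℂ × ℂ => f p.1 ^ 2 * G t (p.1 - p.2)) (volume.prod volume) := by
    rw [integrable_prod_iff hm]
    refine ⟨Eventually.of_forall hsec, ?_⟩
    refine hf2.congr (Eventually.of_forall fun x => ?_)
    have : ∀ y, ‖f x ^ 2 * G t (x - y)‖ = f x ^ 2 * G t (x - y) := fun y =>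
      Real.norm_of_nonneg (mul_nonneg (sq_nonneg _) (H41.G_nonneg ht _))
    simp only [this]
    exact (hint x).symm
  refine ⟨hI, ?_⟩
  have := integral_prod _ hI
  rw [show (volume : Measure (ℂ × ℂ)) = volume.prod volume from rfl, this]
  congr 1
  funext x
  exact hint x

theorem schur {t : ℝ} (ht : 0 < t) {f : ℂ → ℝ} (hf : MemLp f 2 volume) :
    Integrable (fun p : ℂ × ℂ => |f p.1| * G t (p.1 - p.2) * |f p.2|) ∧
    ∫ p : ℂ × ℂ, |f p.1| * G t (p.1 - p.2) * |f p.2| ≤ ∫ x, f x ^ 2 := by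
  obtain ⟨h1, h2⟩ := schur1 ht hf
  have h3 : Integrable (fun p : ℂ × ℂ => f p.2 ^ 2 * G t (p.1 - p.2)) := by
    have := h1.swap
    refine this.congr (Eventually.of_forall fun p => ?_)
    simp only [Function.comp, Prod.fst_swap, Prod.snd_swap]
    rw [H41.G_sub_comm]
  have h4 : ∫ p : ℂ × ℂ, f p.2 ^ 2 * G t (p.1 - p.2) = ∫ x, f x ^ 2 := by
    rw [← h2]
    have := integral_prod_swap (μ := (volume : Measure ℂ)) (ν := (volume : Measure ℂ))
      (fun p : ℂ × ℂ => f p.1 ^ 2 * G t (p.1 - p.2))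
    rw [show (volume : Measure (ℂ × ℂ)) = volume.prod volume from rfl, ← this]
    congr 1
    funext p
    simp only [Prod.fst_swap, Prod.snd_swap]
    rw [H41.G_sub_comm]
  have hle : ∀ p : ℂ × ℂ, |f p.1| * G t (p.1 - p.2) * |f p.2|
      ≤ (f p.1 ^ 2 * G t (p.1 - p.2) + f p.2 ^ 2 * G t (p.1 - p.2)) / 2 := by
    intro p
    have hG := H41.G_nonneg ht (p.1 - p.2)
    have : |f p.1| * |f p.2| ≤ (f p.1 ^ 2 + f p.2 ^ 2) / 2 := by
      have := sq_nonneg (|f p.1| - |f p.2|)
      rw [← sq_abs (f p.1), ← sq_abs (f p.2)]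
      linarith [this, sq (|f p.1| - |f p.2|),
        show (|f p.1| - |f p.2|) ^ 2 = |f p.1| ^ 2 - 2 * (|f p.1| * |f p.2|) + |f p.2| ^ 2 by ring]
    calc |f p.1| * G t (p.1 - p.2) * |f p.2| = (|f p.1| * |f p.2|) * G t (p.1 - p.2) := by ring
      _ ≤ ((f p.1 ^ 2 + f p.2 ^ 2) / 2) * G t (p.1 - p.2) := mul_le_mul_of_nonneg_right this hG
      _ = _ := by ring
  have hm : AEStronglyMeasurable (fun p : ℂ × ℂ => |f p.1| * G t (p.1 - p.2) * |f p.2|)
      (volume.prod volume) := by
    refine ((hf.1.comp_fst).norm.mul ?_).mul (hf.1.comp_snd).norm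
    exact ((H41.G_cont t).comp (continuous_fst.sub continuous_snd)).aestronglyMeasurable
  have hI : Integrable (fun p : ℂ × ℂ => |f p.1| * G t (p.1 - p.2) * |f p.2|) := by
    refine ((h1.add h3).div_const 2).mono' hm (Eventually.of_forall fun p => ?_)
    rw [Real.norm_of_nonneg (mul_nonneg (mul_nonneg (abs_nonneg _) (H41.G_nonneg ht _))
      (abs_nonneg _))]
    exact hle p
  refine ⟨hI, ?_⟩
  calc ∫ p : ℂ × ℂ, |f p.1| * G t (p.1 - p.2) * |f p.2|
      ≤ ∫ p : ℂ × ℂ, (f p.1 ^ 2 * G t (p.1 - p.2) + f p.2 ^ 2 * G t (p.1 - p.2)) / 2 :=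
        integral_mono hI ((h1.add h3).div_const 2) hle
    _ = ∫ x, f x ^ 2 := by
        rw [integral_div, integral_add h1 h3, h2, h4]
        ring

/-! ### The quadratic form of the heat semigroup -/

/-- the quadratic form of the heat semigroup -/
noncomputable def qf (D : Set ℂ) (t : ℝ) (f : ℂ → ℝ) : ℝ := ∫ x, ∫ y, f x * pD D t x y * f y

theorem qf_meas {D : Set ℂ} (hD : IsOpen D) {f : ℂ → ℝ} (hf : Measurable f) :
    Measurable fun t => qf D t f := by
  have h1 : Measurable fun p : (ℝ × ℂ) × ℂ => f p.1.2 * pD D p.1.1 p.1.2 p.2 * f p.2 := by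
    have h0 : Measurable fun p : (ℝ × ℂ) × ℂ => pD D p.1.1 p.1.2 p.2 :=
      (H8.pD_meas hD).comp (by fun_prop : Measurable fun p : (ℝ × ℂ) × ℂ => (p.1.1, p.1.2, p.2))
    exact ((hf.comp (measurable_snd.comp measurable_fst)).mul h0).mul (hf.comp measurable_snd)
  have h2 := (h1.stronglyMeasurable.integral_prod_right' (ν := volume))
  exact (h2.integral_prod_right' (ν := volume)).measurable

theorem pD_meas2 {D : Set ℂ} (hD : IsOpen D) (t : ℝ) :
    Measurable fun p : ℂ × ℂ => pD D t p.1 p.2 :=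
  (H8.pD_meas hD).comp (by fun_prop : Measurable fun p : ℂ × ℂ => (t, p.1, p.2))

theorem pD_symm {D : Set ℂ} (hD : IsOpen D) {t : ℝ} (ht : 0 < t) (x y : ℂ) :
    pD D t x y = pD D t y x :=
  ((H8.pdk D hD).2 t ht).2.2.1 x y

theorem qf_int {D : Set ℂ} (hD : IsOpen D) {t : ℝ} (ht : 0 < t) {f : ℂ → ℝ}
    (hf2 : MemLp f 2 volume) :
    Integrable (fun p : ℂ × ℂ => f p.1 * pD D t p.1 p.2 * f p.2) := by
  refine (schur ht hf2).1.mono' ?_ (Eventually.of_forall fun p => ?_)
  · exact ((hf2.1.comp_fst).mul (pD_meas2 hD t).aestronglyMeasurable).mul (hf2.1.comp_snd)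
  · rw [norm_mul, norm_mul, Real.norm_eq_abs, Real.norm_eq_abs, Real.norm_eq_abs,
      abs_of_nonneg (H8.pD_nonneg hD ht _ _)]
    exact mul_le_mul_of_nonneg_right (mul_le_mul_of_nonneg_left (H8.pD_le hD ht _ _)
      (abs_nonneg _)) (abs_nonneg _)

theorem qf_eq {D : Set ℂ} (hD : IsOpen D) {t : ℝ} (ht : 0 < t) {f : ℂ → ℝ}
    (hf2 : MemLp f 2 volume) :
    qf D t f = ∫ p : ℂ × ℂ, f p.1 * pD D t p.1 p.2 * f p.2 :=
  (integral_prod _ (qf_int hD ht hf2)).symm

theorem qf_abs_le {D : Set ℂ} (hD : IsOpen D) {t : ℝ} (ht : 0 < t) {f : ℂ → ℝ}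
    (hf2 : MemLp f 2 volume) : |qf D t f| ≤ ∫ x, f x ^ 2 := by
  rw [qf_eq hD ht hf2, ← Real.norm_eq_abs]
  refine (norm_integral_le_integral_norm _).trans (le_trans ?_ (schur ht hf2).2)
  refine integral_mono (qf_int hD ht hf2).norm (schur ht hf2).1 fun p => ?_
  simp only [norm_mul, Real.norm_eq_abs]
  rw [abs_of_nonneg (H8.pD_nonneg hD ht p.1 p.2)]
  exact mul_le_mul_of_nonneg_right (mul_le_mul_of_nonneg_left (H8.pD_le hD ht _ _)
    (abs_nonneg _)) (abs_nonneg _)

theorem pD_mul_int {D : Set ℂ} (hD : IsOpen D) {t : ℝ} (ht : 0 < t) (x y : ℂ) :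
    Integrable fun z => pD D t x z * pD D t z y := by
  refine (H41.G_integrable t ht x y).mono' ?_ (Eventually.of_forall fun z => ?_)
  · exact (((pD_meas2 hD t).comp measurable_prodMk_left).mul
      ((pD_meas2 hD t).comp measurable_prodMk_right)).aestronglyMeasurable
  · rw [Real.norm_of_nonneg (mul_nonneg (H8.pD_nonneg hD ht _ _) (H8.pD_nonneg hD ht _ _))]
    exact mul_le_mul (H8.pD_le hD ht _ _) (H8.pD_le hD ht _ _) (H8.pD_nonneg hD ht _ _)
      (H41.G_nonneg ht _)

theorem qf_sq {D : Set ℂ} (hD : IsOpen D) {t : ℝ} (ht : 0 < t) {f : ℂ → ℝ}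
    (hf2 : MemLp f 2 volume) :
    Integrable (fun z => (∫ x, pD D t z x * f x) ^ 2) ∧
    qf D (2 * t) f = ∫ z, (∫ x, pD D t z x * f x) ^ 2 := by
  have ht2 : 0 < 2 * t := by positivity
  set F : (ℂ × ℂ) × ℂ → ℝ := fun q =>
    f q.1.1 * (pD D t q.1.1 q.2 * pD D t q.2 q.1.2) * f q.1.2 with hF
  have hmF : AEStronglyMeasurable F ((volume.prod volume).prod volume) := by
    have h1 : AEStronglyMeasurable (fun p : ℂ × ℂ => f p.1) (volume.prod volume) := hf2.1.comp_fst
    have h2 : AEStronglyMeasurable (fun p : ℂ × ℂ => f p.2) (volume.prod volume) := hf2.1.comp_snd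
    have h3 : Measurable fun q : (ℂ × ℂ) × ℂ => pD D t q.1.1 q.2 * pD D t q.2 q.1.2 :=
      ((pD_meas2 hD t).comp (by fun_prop : Measurable fun q : (ℂ × ℂ) × ℂ => (q.1.1, q.2))).mul
        ((pD_meas2 hD t).comp (by fun_prop : Measurable fun q : (ℂ × ℂ) × ℂ => (q.2, q.1.2)))
    exact ((h1.comp_fst).mul h3.aestronglyMeasurable).mul (h2.comp_fst)
  have hsec : ∀ p : ℂ × ℂ, Integrable fun z => F (p, z) := by
    intro p
    exact ((pD_mul_int hD ht p.1 p.2).const_mul (f p.1)).mul_const (f p.2)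
  have hval : ∀ p : ℂ × ℂ, ∫ z, F (p, z) = f p.1 * pD D (2 * t) p.1 p.2 * f p.2 := by
    intro p
    simp only [hF]
    rw [integral_mul_const, integral_const_mul, ← H8.pD_ck hD ht]
  have hvaln : ∀ p : ℂ × ℂ, ∫ z, ‖F (p, z)‖ = |f p.1| * pD D (2 * t) p.1 p.2 * |f p.2| := by
    intro p
    have : ∀ z, ‖F (p, z)‖ = |f p.1| * (pD D t p.1 z * pD D t z p.2) * |f p.2| := by
      intro z
      simp only [hF, norm_mul, Real.norm_eq_abs]
      rw [abs_of_nonneg (H8.pD_nonneg hD ht p.1 z), abs_of_nonneg (H8.pD_nonneg hD ht z p.2)]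
    simp only [this]
    rw [integral_mul_const, integral_const_mul, ← H8.pD_ck hD ht]
  have hI : Integrable F ((volume.prod volume).prod volume) := by
    rw [integrable_prod_iff hmF]
    refine ⟨Eventually.of_forall hsec, ?_⟩
    simp only [hvaln]
    have := (qf_int hD ht2 hf2).norm
    refine this.congr (Eventually.of_forall fun p => ?_)
    simp only [norm_mul, Real.norm_eq_abs]
    rw [abs_of_nonneg (H8.pD_nonneg hD ht2 p.1 p.2)]
  have hz : ∀ z, ∫ p : ℂ × ℂ, F (p, z) ∂(volume.prod volume)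
      = (∫ x, pD D t z x * f x) ^ 2 := by
    intro z
    have e : (fun p : ℂ × ℂ => F (p, z))
        = fun p => (f p.1 * pD D t p.1 z) * (pD D t z p.2 * f p.2) := by
      funext p
      simp only [hF]
      ring
    rw [e, integral_prod_mul (fun x => f x * pD D t x z) (fun y => pD D t z y * f y), sq]
    congr 1
    congr 1
    funext x
    rw [pD_symm hD ht x z, mul_comm]
  constructor
  · refine hI.integral_prod_right.congr (Eventually.of_forall fun z => ?_)
    exact hz z
  · rw [qf_eq hD ht2 hf2]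
    calc ∫ p : ℂ × ℂ, f p.1 * pD D (2 * t) p.1 p.2 * f p.2
        = ∫ p : ℂ × ℂ, ∫ z, F (p, z) := by
          congr 1
          funext p
          exact (hval p).symm
      _ = ∫ z, ∫ p : ℂ × ℂ, F (p, z) := integral_integral_swap hI
      _ = _ := by
          congr 1
          funext z
          exact hz z

theorem pD_memLp {D : Set ℂ} (hD : IsOpen D) {t : ℝ} (ht : 0 < t) (z : ℂ) :
    MemLp (fun x => pD D t z x) 2 volume := by
  have hm : AEStronglyMeasurable (fun x => pD D t z x) volume :=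
    ((pD_meas2 hD t).comp (measurable_prodMk_left (x := z))).aestronglyMeasurable
  rw [memLp_two_iff_integrable_sq hm]
  refine (pD_mul_int hD ht z z).congr (Eventually.of_forall fun x => ?_)
  simp only [sq]
  rw [pD_symm hD ht x z]

theorem diag_meas {D : Set ℂ} (hD : IsOpen D) :
    Measurable fun p : ℝ × ℂ => pD D p.1 p.2 p.2 :=
  (H8.pD_meas hD).comp (by fun_prop : Measurable fun p : ℝ × ℂ => (p.1, p.2, p.2))

theorem diag_bd {D : Set ℂ} (hD : IsOpen D) {t : ℝ} (ht : 0 < t) (x : ℂ) :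
    0 ≤ pD D t x x ∧ pD D t x x ≤ G t 0 := by
  refine ⟨H8.pD_nonneg hD ht _ _, ?_⟩
  have := H8.pD_le hD ht x x
  rwa [sub_self] at this

theorem diag_int {D : Set ℂ} (hD : IsOpen D) {t : ℝ} (ht : 0 < t) {B : Set ℂ}
    (hv : volume B ≠ ⊤) : IntegrableOn (fun x => pD D t x x) B := by
  refine Measure.integrableOn_of_bounded (M := G t 0) hv ?_ ?_
  · exact ((diag_meas hD).comp (measurable_prodMk_left (x := t))).aestronglyMeasurable
  · refine Eventually.of_forall fun x => ?_
    rw [Real.norm_of_nonneg (diag_bd hD ht x).1]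
    exact (diag_bd hD ht x).2

theorem sq_fub {D : Set ℂ} (hD : IsOpen D) {t : ℝ} (ht : 0 < t) {B : Set ℂ}
    (hv : volume B ≠ ⊤) :
    Integrable (fun z => ∫ x in B, pD D t z x ^ 2) ∧
    ∫ z, ∫ x in B, pD D t z x ^ 2 = ∫ x in B, pD D (2 * t) x x := by
  have hm : AEStronglyMeasurable (fun p : ℂ × ℂ => pD D t p.1 p.2 ^ 2)
      (volume.prod (volume.restrict B)) :=
    ((pD_meas2 hD t).pow_const 2).aestronglyMeasurable
  have e : ∀ x, (fun z => pD D t z x ^ 2) = fun z => pD D t x z * pD D t z x := by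
    intro x
    funext z
    rw [sq, pD_symm hD ht x z]
  have hI : Integrable (fun p : ℂ × ℂ => pD D t p.1 p.2 ^ 2)
      (volume.prod (volume.restrict B)) := by
    rw [integrable_prod_iff' hm]
    constructor
    · refine Eventually.of_forall fun x => ?_
      show Integrable (fun z => pD D t z x ^ 2)
      rw [e x]
      exact pD_mul_int hD ht x x
    · refine (diag_int hD (by positivity : 0 < 2 * t) hv).congr
        (Eventually.of_forall fun x => ?_)
      have : ∀ z, ‖pD D t z x ^ 2‖ = pD D t z x ^ 2 := fun z =>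
        Real.norm_of_nonneg (sq_nonneg _)
      simp only [this]
      rw [e x, ← H8.pD_ck hD ht]
  refine ⟨hI.integral_prod_left, ?_⟩
  rw [integral_integral_swap hI]
  congr 1
  funext x
  rw [e x, ← H8.pD_ck hD ht]

theorem heat_sum {D B : Set ℂ} (hD : IsOpen D) {φ : ℕ → ℂ → ℝ} (h : Onb B φ)
    (hB : MeasurableSet B) (hv : volume B ≠ ⊤) {t : ℝ} (ht : 0 < t) :
    (∀ N, |∑ k ∈ Finset.range N, qf D t (φ k)| ≤ (volume B).toReal * G t 0) ∧
    Tendsto (fun N => ∑ k ∈ Finset.range N, qf D t (φ k)) atTop (𝓝 (∫ x in B, pD D t x x)) := by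
  obtain ⟨s, hs, rfl⟩ : ∃ s, 0 < s ∧ t = 2 * s := ⟨t / 2, by positivity, by ring⟩
  obtain ⟨hHi, hHv⟩ := sq_fub hD hs hv
  have e : ∀ N, ∑ k ∈ Finset.range N, qf D (2 * s) (φ k)
      = ∫ z, ∑ k ∈ Finset.range N, (∫ x, pD D s z x * φ k x) ^ 2 := by
    intro N
    rw [integral_finsetSum _ (fun k _ => (qf_sq hD hs (h.memLp k)).1)]
    exact Finset.sum_congr rfl fun k _ => (qf_sq hD hs (h.memLp k)).2
  have hb : ∀ N z, ∑ k ∈ Finset.range N, (∫ x, pD D s z x * φ k x) ^ 2
      ≤ ∫ x in B, pD D s z x ^ 2 := fun N z => h.bessel hB (pD_memLp hD hs z) N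
  have hnn : ∀ N z, 0 ≤ ∑ k ∈ Finset.range N, (∫ x, pD D s z x * φ k x) ^ 2 := fun N z =>
    Finset.sum_nonneg fun k _ => sq_nonneg _
  have hint : ∀ N, Integrable fun z => ∑ k ∈ Finset.range N, (∫ x, pD D s z x * φ k x) ^ 2 :=
    fun N => integrable_finsetSum _ (fun k _ => (qf_sq hD hs (h.memLp k)).1)
  constructor
  · intro N
    rw [e N, abs_of_nonneg (integral_nonneg (hnn N))]
    calc ∫ z, ∑ k ∈ Finset.range N, (∫ x, pD D s z x * φ k x) ^ 2
        ≤ ∫ z, ∫ x in B, pD D s z x ^ 2 := integral_mono (hint N) hHi (hb N)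
      _ = ∫ x in B, pD D (2 * s) x x := hHv
      _ ≤ ∫ x in B, G (2 * s) 0 :=
          integral_mono (diag_int hD ht hv) (integrableOn_const hv)
            fun x => (diag_bd hD ht x).2
      _ = _ := by
          rw [setIntegral_const, smul_eq_mul]
          rfl
  · simp only [e]
    rw [← hHv]
    refine tendsto_integral_of_dominated_convergence (fun z => ∫ x in B, pD D s z x ^ 2)
      (fun N => (hint N).1) hHi ?_ ?_
    · intro N
      refine Eventually.of_forall fun z => ?_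
      rw [Real.norm_of_nonneg (hnn N z)]
      exact hb N z
    · refine Eventually.of_forall fun z => ?_
      have := (h.pars hB (pD_memLp hD hs z) (pD_memLp hD hs z)).tendsto_sum_nat
      simpa only [← sq] using this

end Pool.Agent.H16F.H55
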