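import Pool.Agent.Helper55_Fine.Trn
import Pool.Agent.Helper67_Fine.BrMain

/-!
TRN, unconditional.
-/

namespace Pool.Agent.H16F.H55

/-- the trace identity, unconditional -/
theorem trn_all : TrnStatement := trn (H67.br res)

end Pool.Agent.H16F.H55
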