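import Pool.Agent.Helper55_Fine.TrnA

/-!
TRN, second part: superpositions of operators of rank one, summed over an orthonormal basis.
-/

namespace Pool.Agent.H16F.H55

open MeasureTheory Complex Filter Topology ProbabilityTheory Pool.Agent.H16Iso Pool.Agent.H62T
open scoped ENNReal NNReal

theorem pair_cases {P Q : ℂ → ℝ} (hP : Measurable P) (hQ : Measurable Q)
    (h : eLpNorm P 2 volume * eLpNorm Q 2 volume < ⊤) :
    (MemLp P 2 volume ∧ MemLp Q 2 volume) ∨ P =ᵐ[volume] 0 ∨ Q =ᵐ[volume] 0 := by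
  by_cases h1 : eLpNorm P 2 volume = 0
  · exact Or.inr (Or.inl ((eLpNorm_eq_zero_iff hP.aestronglyMeasurable (by norm_num)).1 h1))
  by_cases h2 : eLpNorm Q 2 volume = 0
  · exact Or.inr (Or.inr ((eLpNorm_eq_zero_iff hQ.aestronglyMeasurable (by norm_num)).1 h2))
  refine Or.inl ⟨⟨hP.aestronglyMeasurable, ?_⟩, ⟨hQ.aestronglyMeasurable, ?_⟩⟩
  · by_contra hc
    rw [not_lt, top_le_iff] at hc
    rw [hc, ENNReal.top_mul h2] at h
    exact lt_irrefl _ h
  · by_contra hc
    rw [not_lt, top_le_iff] at hc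
    rw [hc, ENNReal.mul_top h1] at h
    exact lt_irrefl _ h

theorem norm_sq_eq {P : ℂ → ℝ} (hP : MemLp P 2 volume) :
    ∫ x, P x ^ 2 = (eLpNorm P 2 volume).toReal ^ 2 := by
  have hi : Integrable fun x => P x ^ 2 := by
    simpa only [sq] using integrable_mul2 hP hP
  rw [eLpNorm_two, integral_eq_lintegral_of_nonneg_ae (Eventually.of_forall fun x => sq_nonneg _)
    hi.1]
  rw [← ENNReal.toReal_pow, ← ENNReal.rpow_natCast, ← ENNReal.rpow_mul]
  norm_num
  congr 1
  refine lintegral_congr fun x => ?_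
  rw [← ofReal_norm, ← ENNReal.ofReal_pow (norm_nonneg _), Real.norm_eq_abs, sq_abs]

theorem set_le {B : Set ℂ} {P : ℂ → ℝ} (hP : MemLp P 2 volume) :
    ∫ x in B, P x ^ 2 ≤ (eLpNorm P 2 volume).toReal ^ 2 := by
  rw [← norm_sq_eq hP]
  have hi : Integrable fun x => P x ^ 2 := by
    simpa only [sq] using integrable_mul2 hP hP
  exact setIntegral_le_integral hi (Eventually.of_forall fun x => sq_nonneg _)

/-- Parseval's identity for two functions, in the form used below -/
theorem pair_sum {B : Set ℂ} {φ : ℕ → ℂ → ℝ} (h : Onb B φ) (hB : MeasurableSet B)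
    {P Q : ℂ → ℝ} (hP : Measurable P) (hQ : Measurable Q)
    (hf : eLpNorm P 2 volume * eLpNorm Q 2 volume < ⊤) :
    (∀ N, |∑ k ∈ Finset.range N, (∫ x, P x * φ k x) * (∫ x, Q x * φ k x)|
      ≤ (eLpNorm P 2 volume * eLpNorm Q 2 volume).toReal) ∧
    Tendsto (fun N => ∑ k ∈ Finset.range N, (∫ x, P x * φ k x) * (∫ x, Q x * φ k x)) atTop
      (𝓝 (∫ x in B, P x * Q x)) := by
  rcases pair_cases hP hQ hf with ⟨h1, h2⟩ | h1 | h2
  · constructor
    · intro N
      have hcs := Finset.sum_mul_sq_le_sq_mul_sq (Finset.range N) (fun k => ∫ x, P x * φ k x)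
        (fun k => ∫ x, Q x * φ k x)
      have b1 := (h.bessel hB h1 N).trans (set_le h1)
      have b2 := (h.bessel hB h2 N).trans (set_le h2)
      rw [ENNReal.toReal_mul]
      refine abs_le_of_sq_le_sq ?_ (by positivity)
      rw [mul_pow]
      refine hcs.trans (mul_le_mul b1 b2 (Finset.sum_nonneg fun k _ => sq_nonneg _)
        (sq_nonneg _))
    · exact (h.pars hB h1 h2).tendsto_sum_nat
  · have e1 : ∀ k, ∫ x, P x * φ k x = 0 := fun k => by
      rw [integral_congr_ae (g := fun _ => (0 : ℝ)), integral_zero]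
      filter_upwards [h1] with x hx
      rw [hx, Pi.zero_apply, zero_mul]
    have e2 : ∫ x in B, P x * Q x = 0 := by
      rw [integral_congr_ae (g := fun _ => (0 : ℝ)), integral_zero]
      filter_upwards [ae_restrict_of_ae h1] with x hx
      rw [hx, Pi.zero_apply, zero_mul]
    simp only [e1, e2, zero_mul, Finset.sum_const_zero, abs_zero]
    exact ⟨fun _ => ENNReal.toReal_nonneg, tendsto_const_nhds⟩
  · have e1 : ∀ k, ∫ x, Q x * φ k x = 0 := fun k => by
      rw [integral_congr_ae (g := fun _ => (0 : ℝ)), integral_zero]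
      filter_upwards [h2] with x hx
      rw [hx, Pi.zero_apply, zero_mul]
    have e2 : ∫ x in B, P x * Q x = 0 := by
      rw [integral_congr_ae (g := fun _ => (0 : ℝ)), integral_zero]
      filter_upwards [ae_restrict_of_ae h2] with x hx
      rw [hx, Pi.zero_apply, mul_zero]
    simp only [e1, e2, mul_zero, Finset.sum_const_zero, abs_zero]
    exact ⟨fun _ => ENNReal.toReal_nonneg, tendsto_const_nhds⟩

theorem pair_lim {P Q : ℂ → ℝ} (hP : Measurable P) (hQ : Measurable Q)
    (hf : eLpNorm P 2 volume * eLpNorm Q 2 volume < ⊤) :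
    (∀ B : Set ℂ, |∫ x in B, P x * Q x| ≤ (eLpNorm P 2 volume * eLpNorm Q 2 volume).toReal) ∧
    Tendsto (fun n : ℕ => ∫ x in Metric.ball (0 : ℂ) (n + 1), P x * Q x) atTop
      (𝓝 (∫ x, P x * Q x)) := by
  rcases pair_cases hP hQ hf with ⟨h1, h2⟩ | h1 | h2
  · have hi : Integrable fun x => P x * Q x := integrable_mul2 h1 h2
    constructor
    · intro B
      have h3 : ∫ x, ‖P x * Q x‖ ≤ (eLpNorm P 2 volume * eLpNorm Q 2 volume).toReal := by
        rw [integral_norm_eq_lintegral_enorm hi.1]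
        refine ENNReal.toReal_mono hf.ne ?_
        rw [eLpNorm_two, eLpNorm_two]
        refine le_trans (le_of_eq ?_) (cs_lintegral volume hP.enorm.aemeasurable
          hQ.enorm.aemeasurable)
        refine lintegral_congr fun x => ?_
        rw [enorm_mul]
      refine le_trans ?_ h3
      rw [← Real.norm_eq_abs]
      refine (norm_integral_le_integral_norm _).trans ?_
      exact setIntegral_le_integral hi.norm (Eventually.of_forall fun x => norm_nonneg _)
    · have h4 := tendsto_setIntegral_of_monotone (μ := (volume : Measure ℂ))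
        (s := fun n : ℕ => Metric.ball (0 : ℂ) (n + 1)) (f := fun x => P x * Q x)
        (fun n => Metric.isOpen_ball.measurableSet)
        (fun n m hnm => Metric.ball_subset_ball (by
          have : (n : ℝ) ≤ m := by exact_mod_cast hnm
          linarith)) hi.integrableOn
      have hU : (⋃ n : ℕ, Metric.ball (0 : ℂ) (n + 1)) = Set.univ := by
        refine Set.eq_univ_of_forall fun x => Set.mem_iUnion.2 ?_
        obtain ⟨n, hn⟩ := exists_nat_gt ‖x‖
        exact ⟨n, by rw [mem_ball_zero_iff]; linarith⟩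
      rwa [hU, Measure.restrict_univ] at h4
  · have e2 : ∀ B : Set ℂ, ∫ x in B, P x * Q x = 0 := fun B => by
      rw [integral_congr_ae (g := fun _ => (0 : ℝ)), integral_zero]
      filter_upwards [ae_restrict_of_ae h1] with x hx
      rw [hx, Pi.zero_apply, zero_mul]
    have e3 : ∫ x, P x * Q x = 0 := by
      have := e2 Set.univ
      rwa [Measure.restrict_univ] at this
    simp only [e2, e3, abs_zero]
    exact ⟨fun _ => ENNReal.toReal_nonneg, tendsto_const_nhds⟩
  · have e2 : ∀ B : Set ℂ, ∫ x in B, P x * Q x = 0 := fun B => by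
      rw [integral_congr_ae (g := fun _ => (0 : ℝ)), integral_zero]
      filter_upwards [ae_restrict_of_ae h2] with x hx
      rw [hx, Pi.zero_apply, mul_zero]
    have e3 : ∫ x, P x * Q x = 0 := by
      have := e2 Set.univ
      rwa [Measure.restrict_univ] at this
    simp only [e2, e3, abs_zero]
    exact ⟨fun _ => ENNReal.toReal_nonneg, tendsto_const_nhds⟩

section Rk

variable {ι : Type} [MeasurableSpace ι] {μ : Measure ι} [SFinite μ] {P Q : ι → ℂ → ℝ}

theorem norm_meas {P : ι → ℂ → ℝ} (hP : Measurable (Function.uncurry P)) :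
    Measurable fun s => eLpNorm (P s) 2 volume := by
  have : (fun s => eLpNorm (P s) 2 volume)
      = fun s => (∫⁻ x, ‖P s x‖ₑ ^ 2) ^ (1 / 2 : ℝ) := by
    funext s
    exact eLpNorm_two _ _
  rw [this]
  exact (Measurable.lintegral_prod_right' (f := fun p : ι × ℂ => ‖P p.1 p.2‖ₑ ^ 2)
    (hP.enorm.pow_const 2)).pow_const _

theorem coef_meas {P : ι → ℂ → ℝ} (hP : Measurable (Function.uncurry P)) {f : ℂ → ℝ}
    (hf : Measurable f) : Measurable fun s => ∫ x, P s x * f x := by
  have : Measurable fun p : ι × ℂ => P p.1 p.2 * f p.2 := hP.mul (hf.comp measurable_snd)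
  exact (this.stronglyMeasurable.integral_prod_right' (ν := volume)).measurable

theorem coef_le {Q f : ℂ → ℝ} (hQ : Measurable Q) (hf : Measurable f) :
    ‖∫ x, Q x * f x‖ₑ ≤ eLpNorm Q 2 volume * eLpNorm f 2 volume := by
  refine (enorm_integral_le_lintegral_enorm _).trans ?_
  rw [eLpNorm_two, eLpNorm_two]
  refine le_trans (le_of_eq ?_) (cs_lintegral volume hQ.enorm.aemeasurable
    hf.enorm.aemeasurable)
  refine lintegral_congr fun x => ?_
  rw [enorm_mul]

theorem rk_single (hP : Measurable (Function.uncurry P)) (hQ : Measurable (Function.uncurry Q))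
    (hfin : ∫⁻ s, eLpNorm (P s) 2 volume * eLpNorm (Q s) 2 volume ∂μ < ⊤) {f ψ : ℂ → ℝ}
    (hf : Measurable f) (hf2 : MemLp f 2 volume)
    (hψ : ∀ᵐ x, ψ x = ∫ s, P s x * (∫ y, Q s y * f y) ∂μ) :
    ∫ x, ψ x * f x = ∫ s, (∫ x, P s x * f x) * (∫ x, Q s x * f x) ∂μ := by
  have hc := coef_meas hQ hf
  have hF : StronglyMeasurable (Function.uncurry fun s x => P s x * (∫ y, Q s y * f y)) := by
    have : Measurable fun p : ι × ℂ => P p.1 p.2 * (∫ y, Q p.1 y * f y) :=
      hP.mul (hc.comp measurable_fst)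
    exact this.stronglyMeasurable
  have hfin2 : ∫⁻ s, eLpNorm (fun x => P s x * (∫ y, Q s y * f y)) 2 volume ∂μ < ⊤ := by
    have e : ∀ s, eLpNorm (fun x => P s x * (∫ y, Q s y * f y)) 2 volume
        ≤ (eLpNorm (P s) 2 volume * eLpNorm (Q s) 2 volume) * eLpNorm f 2 volume := by
      intro s
      have e1 : (fun x => P s x * (∫ y, Q s y * f y)) = (∫ y, Q s y * f y) • P s := by
        funext x
        rw [Pi.smul_apply, smul_eq_mul, mul_comm]
      rw [e1, eLpNorm_const_smul, mul_assoc, mul_comm]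
      exact mul_le_mul_right (coef_le (hQ.comp measurable_prodMk_left) hf) _
    refine (lintegral_mono e).trans_lt ?_
    have hm : Measurable fun s => eLpNorm (P s) 2 volume * eLpNorm (Q s) 2 volume :=
      (norm_meas hP).mul (norm_meas hQ)
    rw [lintegral_mul_const _ hm]
    exact ENNReal.mul_lt_top hfin hf2.2
  have h1 := integral_superposition hF hfin2 hf2
  have h2 : ∫ x, ψ x * f x = ∫ x, f x • (∫ s, P s x * (∫ y, Q s y * f y) ∂μ) := by
    refine integral_congr_ae ?_
    filter_upwards [hψ] with x hx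
    rw [hx, smul_eq_mul, mul_comm]
  rw [h2, h1]
  refine integral_congr_ae (Eventually.of_forall fun s => ?_)
  show ∫ x, f x • (P s x * (∫ y, Q s y * f y)) = (∫ x, P s x * f x) * (∫ x, Q s x * f x)
  rw [← integral_mul_const]
  congr 1
  funext x
  rw [smul_eq_mul]
  ring

theorem rk_sum (hP : Measurable (Function.uncurry P)) (hQ : Measurable (Function.uncurry Q))
    (hfin : ∫⁻ s, eLpNorm (P s) 2 volume * eLpNorm (Q s) 2 volume ∂μ < ⊤)
    {B : Set ℂ} {φ : ℕ → ℂ → ℝ} (h : Onb B φ) (hB : MeasurableSet B) {ψ : ℕ → ℂ → ℝ}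
    (hψ : ∀ k, ∀ᵐ x, ψ k x = ∫ s, P s x * (∫ y, Q s y * φ k y) ∂μ) :
    Tendsto (fun N => ∑ k ∈ Finset.range N, ∫ x, ψ k x * φ k x) atTop
      (𝓝 (∫ s, (∫ x in B, P s x * Q s x) ∂μ)) := by
  have hg : ∀ᵐ s ∂μ, eLpNorm (P s) 2 volume * eLpNorm (Q s) 2 volume < ⊤ :=
    ae_lt_top ((norm_meas hP).mul (norm_meas hQ)) hfin.ne
  have hb : Integrable (fun s => (eLpNorm (P s) 2 volume * eLpNorm (Q s) 2 volume).toReal) μ :=
    integrable_toReal_of_lintegral_ne_top ((norm_meas hP).mul (norm_meas hQ)).aemeasurable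
      hfin.ne
  have hPs : ∀ s, Measurable (P s) := fun s => hP.comp measurable_prodMk_left
  have hQs : ∀ s, Measurable (Q s) := fun s => hQ.comp measurable_prodMk_left
  have hk : ∀ k, Integrable (fun s => (∫ x, P s x * φ k x) * (∫ x, Q s x * φ k x)) μ := by
    intro k
    have hn : eLpNorm (φ k) 2 volume = 1 := by
      have h1 := norm_sq_eq (h.memLp k)
      rw [h.norm k] at h1
      have h2 : (eLpNorm (φ k) 2 volume).toReal = 1 := by
        have h3 : 0 ≤ (eLpNorm (φ k) 2 volume).toReal := ENNReal.toReal_nonneg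
        nlinarith
      rw [← ENNReal.ofReal_toReal (h.memLp k).2.ne, h2, ENNReal.ofReal_one]
    refine hb.mono' ((coef_meas hP (h.meas k)).mul
      (coef_meas hQ (h.meas k))).aestronglyMeasurable ?_
    filter_upwards [hg] with s hs
    have e1 := coef_le (hPs s) (h.meas k)
    have e2 := coef_le (hQs s) (h.meas k)
    rw [hn, mul_one] at e1 e2
    have e3 := mul_le_mul' e1 e2
    rw [← enorm_mul] at e3
    have e4 := ENNReal.toReal_mono hs.ne e3
    rwa [toReal_enorm] at e4
  have e : ∀ N, ∑ k ∈ Finset.range N, ∫ x, ψ k x * φ k x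
      = ∫ s, ∑ k ∈ Finset.range N, (∫ x, P s x * φ k x) * (∫ x, Q s x * φ k x) ∂μ := by
    intro N
    rw [integral_finsetSum _ (fun k _ => hk k)]
    exact Finset.sum_congr rfl fun k _ => rk_single hP hQ hfin (h.meas k) (h.memLp k) (hψ k)
  simp only [e]
  refine tendsto_integral_of_dominated_convergence
    (fun s => (eLpNorm (P s) 2 volume * eLpNorm (Q s) 2 volume).toReal)
    (fun N => (integrable_finsetSum _ (fun k _ => hk k)).1) hb ?_ ?_
  · intro N
    filter_upwards [hg] with s hs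
    exact (pair_sum h hB (hPs s) (hQs s) hs).1 N
  · filter_upwards [hg] with s hs
    exact (pair_sum h hB (hPs s) (hQs s) hs).2

omit [SFinite μ] in
theorem rk_lim (hP : Measurable (Function.uncurry P)) (hQ : Measurable (Function.uncurry Q))
    (hfin : ∫⁻ s, eLpNorm (P s) 2 volume * eLpNorm (Q s) 2 volume ∂μ < ⊤) :
    Tendsto (fun n : ℕ => ∫ s, (∫ x in Metric.ball (0 : ℂ) (n + 1), P s x * Q s x) ∂μ) atTop
      (𝓝 (∫ s, (∫ x, P s x * Q s x) ∂μ)) := by
  have hg : ∀ᵐ s ∂μ, eLpNorm (P s) 2 volume * eLpNorm (Q s) 2 volume < ⊤ :=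
    ae_lt_top ((norm_meas hP).mul (norm_meas hQ)) hfin.ne
  have hb : Integrable (fun s => (eLpNorm (P s) 2 volume * eLpNorm (Q s) 2 volume).toReal) μ :=
    integrable_toReal_of_lintegral_ne_top ((norm_meas hP).mul (norm_meas hQ)).aemeasurable
      hfin.ne
  have hPs : ∀ s, Measurable (P s) := fun s => hP.comp measurable_prodMk_left
  have hQs : ∀ s, Measurable (Q s) := fun s => hQ.comp measurable_prodMk_left
  have hPQ : Measurable fun p : ι × ℂ => P p.1 p.2 * Q p.1 p.2 := hP.mul hQ
  refine tendsto_integral_of_dominated_convergence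
    (fun s => (eLpNorm (P s) 2 volume * eLpNorm (Q s) 2 volume).toReal)
    (fun n => (hPQ.stronglyMeasurable.integral_prod_right'
      (ν := volume.restrict (Metric.ball (0 : ℂ) (n + 1)))).aestronglyMeasurable) hb ?_ ?_
  · intro N
    filter_upwards [hg] with s hs
    exact (pair_lim (hPs s) (hQs s) hs).1 _
  · filter_upwards [hg] with s hs
    exact (pair_lim (hPs s) (hQs s) hs).2

end Rk

end Pool.Agent.H16F.H55
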